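import Mathlib

/-!
# Project WS (helper63): approximate joint Sato-Tate laws for newforms of different weights

Statements of the steps.  Every `S_X : Prop` is one job: deliver `theorem x : S_X` in the file
`Pool/Agent/H63/WS/P/X.lean` (namespace `Pool.Agent.H63.WS`), which imports only this file (and Mathlib).
The paper proofs are in the docstrings.  No sorry, no axioms, no `native_decide`.
-/

set_option autoImplicit false

namespace Pool.Agent.H63.WS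

open Finset

/-- The Chebyshev polynomial of the second kind: `Uc k (cos t) = sin ((k + 1) t) / sin t`. -/
noncomputable def Uc (k : ℕ) (x : ℝ) : ℝ := (Polynomial.Chebyshev.U ℝ (k : ℤ)).eval x

/-- A linear combination of `U_0, …, U_{M-1}`. -/
noncomputable def comb (M : ℕ) (c : ℕ → ℝ) (x : ℝ) : ℝ := ∑ k ∈ range M, c k * Uc k x

/-- The Fejér kernel `1 + 2 ∑_{1 ≤ k < M} (1 - k / M) cos (2 π k x)`. -/
noncomputable def fej (M : ℕ) (x : ℝ) : ℝ :=
  1 + 2 * ∑ k ∈ Ico 1 M, (1 - (k : ℝ) / M) * Real.cos (2 * Real.pi * k * x)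

/-- `φ(y) = y / sin² πy - cos πy / (π sin πy)`; its value at `0` is `0` (also in Lean). -/
noncomputable def phi (y : ℝ) : ℝ :=
  y / Real.sin (Real.pi * y) ^ 2 - Real.cos (Real.pi * y) / (Real.pi * Real.sin (Real.pi * y))

/-- SUMS: the sums of `csc²` and `cot` over equally spaced points.

Proof. Mathlib may have the product formula `sin (M x) = 2^(M-1) ∏ sin (x + m π / M)`; then take
logarithmic derivatives.  Or: let `ω = exp (2 π i x)`; `∏_{m < M} (z - ζ^m) = z^M - 1` for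
`ζ = exp (2 π i / M)`; the logarithmic derivative gives `∑_m 1 / (z - ζ^m) = M z^(M-1) / (z^M - 1)` for
`z^M ≠ 1`, and `cot π(x - m/M) = i (z + ζ^m) / (z - ζ^m) = i (2 z / (z - ζ^m) - 1)` with
`z = exp (2 π i x)`; hence the sum of the cotangents is `i (2 M z^M / (z^M - 1) - M) =
M i (z^M + 1) / (z^M - 1) = M cot π M x`.  The first formula is minus the derivative of the second one
divided by `π` (both sides are differentiable near `x`, the condition `sin (π M x) ≠ 0` is open;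
`(cot π y)' = - π / sin² π y`), or follows from the derivative of the rational identity. -/
def S_SUMS : Prop := ∀ (M : ℕ) (x : ℝ), 1 ≤ M → Real.sin (Real.pi * (M * x)) ≠ 0 →
  (∑ m ∈ range M, 1 / Real.sin (Real.pi * (x - (m : ℝ) / M)) ^ 2 =
    (M : ℝ) ^ 2 / Real.sin (Real.pi * (M * x)) ^ 2) ∧
  ∑ m ∈ range M, Real.cos (Real.pi * (x - (m : ℝ) / M)) / Real.sin (Real.pi * (x - (m : ℝ) / M)) =
    M * (Real.cos (Real.pi * (M * x)) / Real.sin (Real.pi * (M * x)))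

/-- CONV: the inequality `0 ≤ ∑_m φ(x - m/M) + (M/π) cot πx ≤ 1 / sin² πx` for `0 < x < 1`.

Proof. Put `Φ(y) = - (y / π) cos πy / sin πy` for `0 < |y| < 1`, `Φ(0) = - 1 / π²`.  `Φ` is continuous
on `(-1, 1)`, even, and `Φ'(y) = φ(y)` for `y ≠ 0`.  `φ` is increasing on `(-1, 1)`: it is odd, for
`0 < y < 1` one has `φ'(y) = 2 (sin πy - πy cos πy) / sin³ πy > 0` (`sin z - z cos z` has the derivative
`z sin z > 0` on `(0, π)`), and `φ(y) → 0` for `y → 0`, or directly `φ(y) ≥ 0` for `0 < y < 1`, since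
`π y - sin πy cos πy ≥ 0`, and `φ(0) = 0`.  So `Φ(b) - Φ(a) ≤ (b - a) φ(b)` for `-1 < a < b < 1` (mean
value theorem; if `a < 0 < b` apply it on `[a, 0]` and `[0, b]`, using `φ ≤ φ(b)`).
With `b = x - m/M`, `a = x - (m+1)/M`, `0 ≤ m < M`: if all these points are in `(-1, 1)`, the sum over
`m` gives `Φ(x) - Φ(x - 1) ≤ (1/M) ∑_m φ(x - m/M)`, where `-1 < x - 1`; and `Φ(x) - Φ(x - 1) =
Φ(x) - Φ(1 - x) = - (x/π) cot πx + ((1-x)/π) cot π(1-x) = - (1/π) cot πx`.  This is the left inequality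
(call the middle expression `G(x)`).  The right one follows from the symmetry `G(1 - x) = 1/sin² πx -
G(x)`: `φ(1 - z) = 1/sin² πz - φ(z)`, so the term `m = 0` of `G(1 - x)` is `1/sin² πx - φ(x)`, and for
`1 ≤ m < M` the term `φ(1 - x - m/M)` is `- φ(x - (M-m)/M)`; and `cot π(1-x) = - cot πx`.
(The conventions of Lean for division by zero are harmless: `φ(0) = 0` is the right value.) -/
def S_CONV : Prop := ∀ (M : ℕ) (x : ℝ), 1 ≤ M → 0 < x → x < 1 →
  0 ≤ ∑ m ∈ range M, phi (x - (m : ℝ) / M) +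
    M / Real.pi * (Real.cos (Real.pi * x) / Real.sin (Real.pi * x)) ∧
  ∑ m ∈ range M, phi (x - (m : ℝ) / M) +
    M / Real.pi * (Real.cos (Real.pi * x) / Real.sin (Real.pi * x)) ≤ 1 / Real.sin (Real.pi * x) ^ 2

/-- FEJ: the closed form of the Fejér kernel and `0 ≤ fej M x ≤ M`.

Proof: `M · fej M x = ∑_{|k| < M} (M - |k|) e(kx) = |∑_{j<M} e(jx)|²`, and `|e(Mx) - 1| = 2 |sin πMx|`,
`|e(x) - 1| = 2 |sin πx|`; or by induction on `M`. -/
def S_FEJ : Prop := ∀ (M : ℕ) (x : ℝ), 1 ≤ M →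
  M * fej M x * Real.sin (Real.pi * x) ^ 2 = Real.sin (Real.pi * (M * x)) ^ 2 ∧
  0 ≤ fej M x ∧ fej M x ≤ M ∧ fej M (x + 1) = fej M x ∧ fej M (-x) = fej M x

/-- VAAL: Vaaler's approximation of the sawtooth function by trigonometric polynomials of degree `< M`.
(You may use `S_SUMS`, `S_CONV`, `S_FEJ` as hypotheses.)

Proof.  Let `s = sin πMx`, `w_m(x) = (1/M) fej M (x - m/M)`, so that `w_m(x) = s² / (M² sin² π(x - m/M))`
if `s ≠ 0`, and
`V(x) = ∑_{m=1}^{M-1} (m/M - 1/2) w_m(x) + sin (2πMx) / (2πM) - fej M x · sin (2πx) / (2π)`.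
(a) `V` is a trigonometric polynomial of degree `< M`: the term of degree `M` of `fej M x · sin 2πx` is
`(1/M) sin 2πMx` (product formulas for `cos (2πkx) sin (2πx)`; only `k = M - 1` gives degree `M`), so it
cancels.  `V` is odd (or replace `V(x)` by `(V(x) - V(-x)) / 2` at the end), so it is a combination of
`sin (2πkx)`, `1 ≤ k < M`.
(b) Let `0 < x < 1`, `s ≠ 0`.  By `S_SUMS` `∑_{m<M} w_m(x) = 1` and `sin (2πMx) / (2πM) = s² / (πM) ·
cot πMx = ∑_{m<M} s²/(πM²) cot π(x - m/M)`, and `fej M x sin (2πx) / (2π) = s² / (πM) cot πx`.  Hence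
`(M²/s²) (x - 1/2 - V(x)) = ∑_{m=1}^{M-1} (φ(x - m/M) + (1/π) cot πx) + (x - 1/2) / sin² πx
- (1/π) cot πx + (1/π) cot πx` which is `G(x) - 1 / (2 sin² πx)` with the `G` of `S_CONV` (the term
`m = 0` of `G` is `φ(x) + (1/π) cot πx = x / sin² πx`).  By `S_CONV` the absolute value is at most
`1 / (2 sin² πx)`, so `|x - 1/2 - V(x)| ≤ s² / (2 M² sin² πx) = fej M x / (2M)`.
(c) For `0 < x < 1` with `s = 0` use continuity (the points with `s ≠ 0` are dense). -/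
def S_VAAL : Prop := ∀ M : ℕ, 1 ≤ M → ∃ v : ℕ → ℝ, ∀ x : ℝ, 0 < x → x < 1 →
  |x - 1 / 2 - ∑ k ∈ Ico 1 M, v k * Real.sin (2 * Real.pi * k * x)| ≤ 1 / (2 * M) * fej M x

/-- STEP: one-sided approximation of a step function in the angle, for the measure
`(2/π) sin² t dt` on `[0, π]`.  (You may use `S_FEJ` and `S_VAAL` as hypotheses.)

Proof.  Let `V(x) = ∑ v_k sin 2πkx` be as in `S_VAAL` and `P(t) = β/π + V((t-β)/2π) - V((t+β)/2π) =
β/π - 2 ∑_{1≤k<M} v_k sin (kβ) cos (kt)`, `E(t) = (1/2M) (fej M ((t-β)/2π) + fej M ((t+β)/2π)) =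
(1/M) (1 + 2 ∑_{1≤k<M} (1-k/M) cos kβ cos kt)`.  These are combinations of `cos kt`, `k < M`, hence
(`cos 0t = U_0`, `cos t = U_1/2`, `cos kt = (U_k - U_{k-2})/2` for `k ≥ 2`, `U_k = Uc k (cos t)`) of the
`Uc k (cos t)`, `k < M`; the coefficient of `U_0` in `E` is `1/M - (1/M)(1-2/M) cos 2β` (the second
term is absent if `M ≤ 2`; for `M = 2` it is zero anyway), so it is `≤ 2/M`.
Let `0 < t < π`... more precisely `t ∈ [0, π]`.  With the sawtooth function `ψ(x) = x - 1/2` for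
`0 < x < 1`, of period one, odd: if `t < β` then `(t-β)/2π ∈ (-1/2, 0)`, `ψ = (t-β)/2π + 1/2`, and
`(t+β)/2π ∈ (0, 1)`, `ψ = (t+β)/2π - 1/2`, so `β/π + ψ(..) - ψ(..) = 1`; if `t > β` both arguments are
in `(0, 1)` and the value is `0`.  (`V` has period one and `fej M` too, so `S_VAAL` holds for `ψ` at all
nonintegral points; at `x - 1 ∈ (-1, 0)` apply it to `x`.)  So `|c - P(t)| ≤ E(t)` if `t ≠ β`.  If
`t = β`: `V(0) = 0`, `β/π - V(β/π)` differs from `1/2` by at most `fej M (β/π) / (2M)`, and `E(β) =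
(M + fej M (β/π)) / (2M)` (`fej M 0 = M`), so the inequality holds for all `c ∈ [0, 1]`.
`E ≤ 1` by `fej ≤ M`.
Last claim: `∫_0^π Uc k (cos t) sin² t dt = ∫_0^π sin ((k+1)t) sin t dt` is `π/2` for `k = 0` and `0`
otherwise, so integrate `|1_{t<β} - P| ≤ E` against `(2/π) sin² t`. -/
def S_STEP : Prop := ∀ (M : ℕ) (β : ℝ), 1 ≤ M → 0 < β → β < Real.pi → ∃ p e : ℕ → ℝ,
  e 0 ≤ 2 / M ∧ (2 ≤ M → e 0 = 1 / M * (1 - (1 - 2 / M) * Real.cos (2 * β))) ∧
  (∀ t ∈ Set.Icc (0 : ℝ) Real.pi, ∀ c ∈ Set.Icc (0 : ℝ) 1, (t < β → c = 1) → (β < t → c = 0) →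
    |c - comb M p (Real.cos t)| ≤ comb M e (Real.cos t)) ∧
  (∀ t ∈ Set.Icc (0 : ℝ) Real.pi, comb M e (Real.cos t) ≤ 1) ∧
  |2 / Real.pi * (∫ t in (0 : ℝ)..β, Real.sin t ^ 2) - p 0| ≤ e 0

/-- bounded functions -/
def Bdd {X : Type} (f : X → ℝ) : Prop := ∃ C : ℝ, ∀ v, |f v| ≤ C

/-- A positive normalised linear functional on the bounded functions. -/
structure IsMean {X : Type} (L : (X → ℝ) → ℝ) : Prop where
  add : ∀ f g : X → ℝ, Bdd f → Bdd g → L (fun v => f v + g v) = L f + L g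
  smul : ∀ (c : ℝ) (f : X → ℝ), Bdd f → L (fun v => c * f v) = c * L f
  mono : ∀ f g : X → ℝ, Bdd f → Bdd g → (∀ v, f v ≤ g v) → L f ≤ L g
  one : L (fun _ => 1) = 1

/-- The `L`-means of the products `∏ U_{a_i}(x_i)` vanish for all `a ≠ 0` of which fewer than `k` entries
satisfy `a_i ≥ A_i`. -/
def Vanish {X : Type} {ι : Type} [Fintype ι] (L : (X → ℝ) → ℝ) (x : ι → X → ℝ) (A : ι → ℕ)
    (k : ℕ) : Prop :=
  ∀ a : ι → ℕ, a ≠ 0 → (univ.filter fun i => A i ≤ a i).card < k →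
    L (fun v => ∏ i, Uc (a i) (x i v)) = 0

/-- COMBO: the mean of a product of combinations.

Proof.  `Finset.prod_univ_sum` expands `∏_i ∑_{l < M i} c i l U_l(x_i) = ∑_{a ∈ piFinset} ∏ c i (a i) ·
∏ U_{a i}(x_i)`; additivity and homogeneity of `L` (the functions are bounded: `U_l` is continuous on
`[-1, 1]`); the term `a = 0` gives `∏ c i 0` (it occurs since `1 ≤ M i`), all other terms vanish: the
entries with `A i ≤ a i < M i` are in `B`, so there are fewer than `k` of them. -/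
def S_COMBO : Prop := ∀ (X ι : Type) [Fintype ι] [DecidableEq ι] (L : (X → ℝ) → ℝ) (_ : IsMean L)
  (x : ι → X → ℝ) (_ : ∀ i v, x i v ∈ Set.Icc (-1 : ℝ) 1) (A : ι → ℕ) (k : ℕ) (_ : Vanish L x A k)
  (B : Finset ι) (_ : B.card < k) (M : ι → ℕ) (_ : ∀ i, 1 ≤ M i) (_ : ∀ i, i ∉ B → M i ≤ A i)
  (c : ι → ℕ → ℝ), L (fun v => ∏ i, comb (M i) (c i) (x i v)) = ∏ i, c i 0

/-- `c` is approximated at the scale `M`, with the mean value `m` and the error `δ`. -/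
def Approx {X : Type} (c x : X → ℝ) (m : ℝ) (M : ℕ) (δ : ℝ) : Prop :=
  ∃ p e : ℕ → ℝ, e 0 ≤ δ ∧ (∀ v, |c v - comb M p (x v)| ≤ comb M e (x v)) ∧
    (∀ v, comb M e (x v) ≤ 2) ∧ |m - p 0| ≤ e 0

/-- ABS: the main estimate.  (You may use `S_COMBO` as a hypothesis.)

Proof.  For every `i` let `P_i, E_i` be the combinations of `Approx` at the scale `A_i`, with the constant
coefficients `p_i, e_i ≤ ε_i`, and, for given `η > 0`, `G_i, H_i` those at a scale `M_i`, with the constant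
coefficients `g_i`, `h_i ≤ η`.  All are functions on `X` (evaluated at `x_i v`).  `0 ≤ E_i, H_i ≤ 2`,
`|P_i| ≤ 1 + E_i ≤ 3`, `|G_i| ≤ 3`, `r_i := G_i - P_i`, `|r_i| ≤ H_i + E_i` (both bounds through `c_i`);
similarly for the constants: `e_i, h_i ≥ 0`, `|p_i| ≤ 1 + e_i`, `|g_i - p_i| ≤ h_i + e_i`, as
`0 ≤ m_i ≤ 1`.
(1) `|∏ c_i - ∏ G_i| ≤ 3^n ∑ H_i` pointwise, and `L(H_i) = h_i` (`S_COMBO` with `B = {i}` and all other
factors `comb 1 (fun _ => 1) = 1`; `1 < k`; `L` of `|..|` bounds `|L ..|` by monotonicity), so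
`|L(∏ c) - L(∏ G)| ≤ 3^n n η`; similarly `|∏ m_i - ∏ g_i| ≤ 3^n n η`.
(2) `∏ G_i = ∏ (P_i + r_i) = ∑_B ∏_{i∈B} r_i ∏_{i∉B} P_i` (`Finset.prod_add`).  For `|B| < k`
`S_COMBO` gives `L(∏_B r_i ∏_{∉B} P_i) = ∏_B (g_i - p_i) ∏_{∉B} p_i` (`r_i` is a combination of `U_l`,
`l < max (M_i, A_i)`).  So `L(∏ G) - ∏ g_i` is the sum over `|B| ≥ k` of `L(∏_B r_i ∏_{∉B} P_i) -
∏_B (g_i - p_i) ∏_{∉B} p_i`.
(3) For `|B| ≥ k`: `|∏_B r_i ∏_{∉B} P_i| ≤ ∏_B (E_i + H_i) ∏_{∉B} (1 + E_i) ≤ ∏_B E_i ∏_{∉B} (1 + E_i) +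
4^n ∑_i H_i` (all factors are `≤ 4`; `∏ (E+H) - ∏ E ≤ ∑ H_i · 4^(..)`) and by `S_COMBO` (`B = ∅` there) the
mean of the first product is `∏_B e_i ∏_{∉B} (1 + e_i)`; so `|L(..)| ≤ ∏_B ε_i ∏_{∉B} (1 + ε_i) + 4^n n η`.
The same bound for the constants.
(4) `η → 0`. -/
def S_ABS : Prop := ∀ (X ι : Type) [Fintype ι] [DecidableEq ι] (L : (X → ℝ) → ℝ) (_ : IsMean L)
  (x : ι → X → ℝ) (_ : ∀ i v, x i v ∈ Set.Icc (-1 : ℝ) 1) (A : ι → ℕ) (_ : ∀ i, 1 ≤ A i) (k : ℕ)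
  (_ : 2 ≤ k) (_ : Vanish L x A k) (c : ι → X → ℝ) (_ : ∀ i v, c i v ∈ Set.Icc (0 : ℝ) 1)
  (m ε : ι → ℝ) (_ : ∀ i, m i ∈ Set.Icc (0 : ℝ) 1) (_ : ∀ i, Approx (c i) (x i) (m i) (A i) (ε i))
  (_ : ∀ i, ∀ η : ℝ, 0 < η → ∃ M, 1 ≤ M ∧ Approx (c i) (x i) (m i) M η),
  |L (fun v => ∏ i, c i v) - ∏ i, m i| ≤
    2 * ∑ B ∈ univ.powerset.filter (fun B : Finset ι => k ≤ B.card),
      (∏ i ∈ B, ε i) * ∏ i ∈ Bᶜ, (1 + ε i)

/-- At every `e` the sums `∑_{i ∈ S} j_i w_i(e)`, `0 ≤ j_i ≤ a_i`, are pairwise different. -/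
def Regular {ι E : Type} (w : ι → E → ℕ) (a : ι → ℕ) (S : Finset ι) : Prop :=
  ∀ e, ∀ j l : ι → ℕ, (∀ i ∈ S, j i ≤ a i) → (∀ i ∈ S, l i ≤ a i) →
    ∑ i ∈ S, j i * w i e = ∑ i ∈ S, l i * w i e → ∀ i ∈ S, j i = l i

/-- Every `a ≠ 0` with fewer than `k` entries `a_i ≥ A_i` admits a decomposition of the index set into
two sets which are regular. -/
def Splits {ι E : Type} [Fintype ι] [DecidableEq ι] (w : ι → E → ℕ) (A : ι → ℕ) (k : ℕ) : Prop :=
  ∀ a : ι → ℕ, (univ.filter fun i => A i ≤ a i).card < k →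
    ∃ S : Finset ι, Regular w a S ∧ Regular w a Sᶜ

/-- REG: the combinatorics of the weights.

Proof.  PAIRS: if `i ≠ j`, `a_i < A_i` and `A_i gcd(w_i, w_j) ≤ w_j` (at every `e`), `w > 0`, then `{i, j}`
is regular: `j_i w_i + j_j w_j = l_i w_i + l_j w_j` gives `(j_i - l_i) w_i = (l_j - j_j) w_j`, so
`w_j / g` divides `j_i - l_i`, where `g` is the gcd, and `|j_i - l_i| ≤ a_i < A_i ≤ w_j / g`; so
`j_i = l_i` and then `j_j = l_j`.  Singletons and the empty set are regular.  A subset of a regular set is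
regular, and the property is monotone in `a`.
(1) `card ι = 3`: if fewer than 3 entries are large there is `i` with `a_i < A_i`; with the `j ≠ i` of the
hypothesis take `S = {i, j}`; the complement is a singleton.
(2) `card ι = 4`: at most two entries are large; write `ι = {b1, b2, x, y}` with `a_x < A_x` and
`a_y < A_y`; take `S = {b1, x}`, complement `{b2, y}`.
(3) if at most one entry is `≥ R + 1`, say (if any) at `b`: `S = {b}` and the complement is a subset of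
the regular set `univ` for exponents `≤ R`. -/
def S_REG : Prop := ∀ (ι E : Type) [Fintype ι] [DecidableEq ι] (w : ι → E → ℕ) (A : ι → ℕ)
  (_ : ∀ i e, 0 < w i e),
  (Fintype.card ι = 3 → (∀ i, ∃ j, j ≠ i ∧ ∀ e, A i * Nat.gcd (w i e) (w j e) ≤ w j e) →
    Splits w A 3) ∧
  (Fintype.card ι = 4 → (∀ i j, i ≠ j → ∀ e, A i * Nat.gcd (w i e) (w j e) ≤ w j e) →
    Splits w A 3) ∧
  (∀ R : ℕ, Regular w (fun _ => R) univ → Splits w (fun _ => R + 1) 2)

end Pool.Agent.H63.WS
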