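import Pool.Graph.R_pool_sql_team_seeded_64922ed1.X289.MultiF
import Pool.Agent.H63.WS.Stm

/-!
# Definitions: families of angles, the L-functions of tensor products of symmetric powers, newforms
-/

set_option autoImplicit false

namespace Pool.Agent.H63.WS

open NumberField IsDedekindDomain Filter Topology

variable {K : Type} [Field K] [NumberField K] {ι : Type} [Fintype ι] [DecidableEq ι]

/-- The Rankin-Selberg Euler product of `⊗_i Sym^{c_i}` and `⊗_i Sym^{d_i}`, with the local factors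
`∏ (1 - ∏_i exp(i (c_i - 2 k_i) θ_i) ∏_i exp(i (d_i - 2 l_i) θ_i) q_v^{-s})⁻¹` over all pairs of tuples
`k`, `l` with `0 ≤ k_i ≤ c_i`, `0 ≤ l_i ≤ d_i`. -/
noncomputable def LFun (θ : ι → HeightOneSpectrum (𝓞 K) → ℝ) (c d : ι → ℕ) (s : ℂ) : ℂ :=
  ∏' v : HeightOneSpectrum (𝓞 K), (∏ k : ((i : ι) → Fin (c i + 1)) × ((i : ι) → Fin (d i + 1)),
    (1 - ((∏ i, Complex.exp ((((c i : ℝ) - 2 * ((k.1 i : ℕ) : ℝ)) * θ i v : ℝ) * Complex.I)) *
      (∏ i, Complex.exp ((((d i : ℝ) - 2 * ((k.2 i : ℕ) : ℝ)) * θ i v : ℝ) * Complex.I))) *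
      (Ideal.absNorm v.asIdeal : ℂ) ^ (-s)))⁻¹

/-- `Λ` is a meromorphic continuation of `LFun θ c d` to a neighbourhood of `1 + iτ`. -/
def IsContinuation (θ : ι → HeightOneSpectrum (𝓞 K) → ℝ) (c d : ι → ℕ) (τ : ℝ) (Λ : ℂ → ℂ) : Prop :=
  MeromorphicAt Λ (1 + τ * Complex.I) ∧
    ∀ᶠ s in 𝓝 ((1 : ℂ) + τ * Complex.I), (1 : ℝ) < s.re → Λ s = LFun θ c d s

omit [DecidableEq ι] in
/-- `⊗_i Sym^{c_i}` is regular: at every `e` the numbers `∑ j_i w_i(e)`, `0 ≤ j_i ≤ c_i`, are pairwise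
different. -/
def Distinct {E : Type} (w : ι → E → ℕ) (c : ι → ℕ) : Prop := Regular w c Finset.univ

/-- What is used of the newforms `f_i`, `i ∈ ι`, over the totally real field `K`: `θ_i(v) ∈ [0, π]` is
the angle of `f_i` at `v` (any number at the finitely many bad primes), `e` runs through the real
embeddings of `K` and `w_i(e) = k_i(e) - 1 ≥ 1` is the motivic weight (the two Hodge numbers of `f_i` at
`e` are at distance `w_i(e)`).  If both the tensor product of the `Sym^{c_i}` and the tensor product of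
the `Sym^{d_i}` have pairwise different Hodge numbers at every `e`, then their Rankin-Selberg
`L`-function has no zeros on `Re s = 1` and no poles there except for a simple pole at `s = 1` if
`c = d`. -/
structure Newforms {E : Type} (θ : ι → HeightOneSpectrum (𝓞 K) → ℝ) (w : ι → E → ℕ) : Prop where
  angle : ∀ i v, θ i v ∈ Set.Icc 0 Real.pi
  pos : ∀ i e, 0 < w i e
  known : ∀ c d : ι → ℕ, Distinct w c → Distinct w d → ∀ τ : ℝ, ∃ Λ : ℂ → ℂ,
    IsContinuation θ c d τ Λ ∧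
      meromorphicOrderAt Λ (1 + τ * Complex.I) = if c = d ∧ τ = 0 then -1 else 0

/-- Every `a` with fewer than `k` entries `a_i ≥ A_i` is the sum of two `c`, `d` for which
`⊗_i Sym^{c_i}` and `⊗_i Sym^{d_i}` are regular. -/
def Sums {E : Type} (w : ι → E → ℕ) (A : ι → ℕ) (k : ℕ) : Prop :=
  ∀ a : ι → ℕ, (Finset.univ.filter fun i => A i ≤ a i).card < k →
    ∃ c d : ι → ℕ, (∀ i, a i = c i + d i) ∧ Distinct w c ∧ Distinct w d

/-- The proportion of the primes in `T` among the primes of norm at most `N`. -/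
noncomputable def proportion (T : Set (HeightOneSpectrum (𝓞 K))) (N : ℕ) : ℝ :=
  (Nat.card {v : HeightOneSpectrum (𝓞 K) // Ideal.absNorm v.asIdeal ≤ N ∧ v ∈ T} : ℝ) /
    (Nat.card {v : HeightOneSpectrum (𝓞 K) // Ideal.absNorm v.asIdeal ≤ N} : ℝ)

/-- The Sato-Tate measure of `[α, β]`. -/
noncomputable def st (α β : ℝ) : ℝ := 2 / Real.pi * ∫ t in α..β, Real.sin t ^ 2

/-- `I` is an interval in `[0, π]` with the end points `α < β`, with or without them; if `α = 0` or
`β = π` this end point belongs to `I`. -/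
def IsInterval (α β : ℝ) (I : Set ℝ) : Prop :=
  0 ≤ α ∧ α < β ∧ β ≤ Real.pi ∧ Set.Ioo α β ⊆ I ∧ I ⊆ Set.Icc α β ∧ (α = 0 → α ∈ I) ∧
    (β = Real.pi → β ∈ I)

/-- The error `(1/A) (1 - (1 - 2/A) cos 2β)` at the end point `β`, `0` if `β = 0` or `β = π`. -/
noncomputable def endErr (A : ℕ) (β : ℝ) : ℝ :=
  if β = 0 ∨ β = Real.pi then 0 else 1 / A * (1 - (1 - 2 / A) * Real.cos (2 * β))

end Pool.Agent.H63.WS
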