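import Pool.Agent.H63.WS.Main
set_option autoImplicit false
set_option linter.unusedSectionVars false

namespace Pool.Agent.H63.WS

open NumberField IsDedekindDomain Filter Topology Finset

/-- the interval of the angles with a cosine of the sign `σ = ± 1` -/
noncomputable def sgnSet (σ : ℝ) : Set ℝ :=
  if 0 < σ then Set.Ico 0 (Real.pi / 2) else Set.Ioc (Real.pi / 2) Real.pi

noncomputable def sgnL (σ : ℝ) : ℝ := if 0 < σ then 0 else Real.pi / 2
noncomputable def sgnR (σ : ℝ) : ℝ := if 0 < σ then Real.pi / 2 else Real.pi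

theorem isInterval_sgn (σ : ℝ) : IsInterval (sgnL σ) (sgnR σ) (sgnSet σ) := by
  have hpi := Real.pi_pos
  unfold IsInterval sgnL sgnR sgnSet
  split_ifs with h
  · refine ⟨le_rfl, by positivity, by linarith, Set.Ioo_subset_Ico_self,
      Set.Ico_subset_Icc_self, fun _ => ⟨le_rfl, by positivity⟩, fun h1 => ?_⟩
    exfalso
    linarith
  · refine ⟨by positivity, by linarith, le_rfl, Set.Ioo_subset_Ioc_self,
      Set.Ioc_subset_Icc_self, fun h1 => ?_, fun _ => ⟨by linarith, le_rfl⟩⟩
    exfalso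
    linarith

theorem st_half : st 0 (Real.pi / 2) = 1 / 2 := by
  have hpi := Real.pi_pos
  unfold st
  rw [integral_sin_sq]
  simp
  field_simp

theorem st_sgn (σ : ℝ) : st (sgnL σ) (sgnR σ) = 1 / 2 := by
  have hpi := Real.pi_pos
  unfold sgnL sgnR
  split_ifs with h
  · exact st_half
  · unfold st
    rw [integral_sin_sq]
    simp
    field_simp
    norm_num

theorem endErr_sgn {A : ℕ} (σ : ℝ) :
    endErr A (sgnL σ) + endErr A (sgnR σ) = 1 / A * (2 - 2 / A) := by
  have hpi := Real.pi_pos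
  have h1 : endErr A 0 = 0 := by unfold endErr; rw [if_pos (Or.inl rfl)]
  have h2 : endErr A Real.pi = 0 := by unfold endErr; rw [if_pos (Or.inr rfl)]
  have h3 : endErr A (Real.pi / 2) = 1 / A * (2 - 2 / A) := by
    unfold endErr
    rw [if_neg]
    · have : 2 * (Real.pi / 2) = Real.pi := by ring
      rw [this, Real.cos_pi]
      ring
    · push Not
      exact ⟨by positivity, by linarith⟩
  unfold sgnL sgnR
  split_ifs with h
  · rw [h1, h3, zero_add]
  · rw [h2, h3, add_zero]

theorem mem_sgn {σ t : ℝ} (hσ : σ = 1 ∨ σ = -1) (ht : t ∈ Set.Icc 0 Real.pi) :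
    0 < σ * Real.cos t ↔ t ∈ sgnSet σ := by
  have hpi := Real.pi_pos
  unfold sgnSet
  rcases hσ with h | h
  · subst h
    rw [if_pos one_pos, one_mul]
    constructor
    · intro h1
      refine ⟨ht.1, ?_⟩
      by_contra h2
      rw [not_lt] at h2
      have := Real.cos_nonpos_of_pi_div_two_le_of_le h2 (by linarith [ht.2])
      linarith
    · rintro ⟨h1, h2⟩
      exact Real.cos_pos_of_mem_Ioo ⟨by linarith, h2⟩
  · subst h
    rw [if_neg (by norm_num)]
    constructor
    · intro h1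
      refine ⟨?_, ht.2⟩
      by_contra h2
      rw [not_lt] at h2
      have := Real.cos_nonneg_of_mem_Icc ⟨by linarith [ht.1], h2⟩
      linarith
    · rintro ⟨h1, h2⟩
      have := Real.cos_neg_of_pi_div_two_lt_of_lt h1 (by linarith)
      linarith

theorem endErr_nonneg {A : ℕ} (hA : 2 ≤ A) (β : ℝ) : 0 ≤ endErr A β := by
  have hA' : (2 : ℝ) ≤ A := by exact_mod_cast hA
  unfold endErr
  split_ifs
  · exact le_rfl
  · have h1 : (2 : ℝ) / A ≤ 1 := by
      rw [div_le_one (by linarith)]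
      exact hA'
    have h2 : (0 : ℝ) ≤ 2 / A := by positivity
    have h3 := Real.cos_le_one (2 * β)
    refine mul_nonneg (by positivity) ?_
    nlinarith [mul_le_mul_of_nonneg_left h3 (by linarith : (0 : ℝ) ≤ 1 - 2 / A)]

theorem endErr_le {A : ℕ} (hA : 2 ≤ A) (β : ℝ) : endErr A β ≤ 2 / A := by
  have hA' : (2 : ℝ) ≤ A := by exact_mod_cast hA
  unfold endErr
  split_ifs
  · positivity
  · have h1 : (2 : ℝ) / A ≤ 1 := by
      rw [div_le_one (by linarith)]
      exact hA'
    have h3 := Real.neg_one_le_cos (2 * β)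
    have h4 : 1 - (1 - 2 / A) * Real.cos (2 * β) ≤ 2 := by
      nlinarith [mul_le_mul_of_nonneg_left h3 (by linarith : (0 : ℝ) ≤ 1 - 2 / A),
        (by positivity : (0 : ℝ) ≤ 2 / A)]
    calc 1 / A * (1 - (1 - 2 / A) * Real.cos (2 * β)) ≤ 1 / A * 2 :=
          mul_le_mul_of_nonneg_left h4 (by positivity)
      _ = 2 / A := by ring

variable {ι : Type} [Fintype ι] [DecidableEq ι]

theorem bound_three (hc : Fintype.card ι = 3) (ε : ι → ℝ) : bound 3 ε = 2 * ∏ i, ε i := by
  unfold bound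
  congr 1
  rw [Finset.sum_eq_single univ]
  · simp
  · intro B hB hB2
    exfalso
    rw [Finset.mem_filter] at hB
    apply hB2
    rw [← Finset.card_eq_iff_eq_univ]
    have := Finset.card_le_univ B
    omega
  · intro h
    exfalso
    apply h
    rw [Finset.mem_filter]
    exact ⟨Finset.mem_powerset.2 (Finset.subset_univ _), by rw [Finset.card_univ, hc]⟩

theorem bound_mono {k : ℕ} {ε δ : ι → ℝ} (h0 : ∀ i, 0 ≤ ε i) (h : ∀ i, ε i ≤ δ i) :
    bound k ε ≤ bound k δ := by
  unfold bound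
  refine mul_le_mul_of_nonneg_left (Finset.sum_le_sum fun B _ => ?_) (by norm_num)
  refine mul_le_mul (Finset.prod_le_prod (fun i _ => h0 i) fun i _ => h i)
    (Finset.prod_le_prod (fun i _ => by have := h0 i; linarith) fun i _ => by
      have := h i; linarith)
    (Finset.prod_nonneg fun i _ => by have := h0 i; linarith)
    (Finset.prod_nonneg fun i _ => (h0 i).trans (h i))

/-- the general bound with two large entries -/
theorem bound_two {x : ℝ} (hx : 0 ≤ x) :
    bound 2 (fun _ : ι => x) ≤ 2 * (Fintype.card ι : ℝ) ^ 2 * x ^ 2 * (1 + 2 * x) ^ Fintype.card ι := by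
  unfold bound
  have key : ∑ B ∈ univ.powerset.filter (fun B : Finset ι => 2 ≤ B.card),
      (∏ _i ∈ B, x) * ∏ _i ∈ Bᶜ, (1 + x) ≤
      ∑ p ∈ (univ : Finset (ι × ι)).filter (fun p => p.1 ≠ p.2),
        ∑ B ∈ univ.powerset.filter (fun B : Finset ι => p.1 ∈ B ∧ p.2 ∈ B),
          (∏ _i ∈ B, x) * ∏ _i ∈ Bᶜ, (1 + x) := by
    rw [Finset.sum_comm' (s' := fun B : Finset ι => (univ : Finset (ι × ι)).filter
      (fun p => p.1 ≠ p.2 ∧ p.1 ∈ B ∧ p.2 ∈ B)) (t' := univ.powerset)
      (by
        intro p B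
        simp only [Finset.mem_filter, Finset.mem_univ, true_and, Finset.mem_powerset,
          Finset.subset_univ]
        tauto)]
    rw [Finset.sum_filter]
    refine Finset.sum_le_sum fun B _ => ?_
    have hn : 0 ≤ (∏ _i ∈ B, x) * ∏ _i ∈ Bᶜ, (1 + x) :=
      mul_nonneg (Finset.prod_nonneg fun _ _ => hx) (Finset.prod_nonneg fun _ _ => by linarith)
    split_ifs with hB
    · obtain ⟨i, hi, j, hj, hij⟩ := Finset.one_lt_card.1 (by omega : 1 < B.card)
      rw [Finset.sum_const, nsmul_eq_mul]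
      have h1 : (1 : ℝ) ≤ (((univ : Finset (ι × ι)).filter
          (fun p => p.1 ≠ p.2 ∧ p.1 ∈ B ∧ p.2 ∈ B)).card : ℝ) := by
        have : 0 < ((univ : Finset (ι × ι)).filter
          (fun p => p.1 ≠ p.2 ∧ p.1 ∈ B ∧ p.2 ∈ B)).card :=
          Finset.card_pos.2 ⟨(i, j), by simp [hi, hj, hij]⟩
        exact_mod_cast this
      nlinarith
    · exact Finset.sum_nonneg fun _ _ => hn
  have inner : ∀ p ∈ (univ : Finset (ι × ι)).filter (fun p => p.1 ≠ p.2),
      ∑ B ∈ univ.powerset.filter (fun B : Finset ι => p.1 ∈ B ∧ p.2 ∈ B),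
        (∏ _i ∈ B, x) * ∏ _i ∈ Bᶜ, (1 + x) ≤ x ^ 2 * (1 + 2 * x) ^ Fintype.card ι := by
    intro p hp
    have hne : p.1 ≠ p.2 := (Finset.mem_filter.1 hp).2
    -- sum over all B with weights f i on B and g i off B, where g vanishes at p.1, p.2
    have h1 : ∑ B ∈ univ.powerset.filter (fun B : Finset ι => p.1 ∈ B ∧ p.2 ∈ B),
        (∏ _i ∈ B, x) * ∏ _i ∈ Bᶜ, (1 + x) =
        ∑ B ∈ (univ : Finset ι).powerset, (∏ _i ∈ B, x) * ∏ i ∈ univ \ B,
          (if i = p.1 ∨ i = p.2 then (0 : ℝ) else 1 + x) := by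
      rw [Finset.sum_filter]
      refine Finset.sum_congr rfl fun B _ => ?_
      split_ifs with hB
      · congr 1
        rw [← Finset.compl_eq_univ_sdiff]
        refine Finset.prod_congr rfl fun i hi => ?_
        rw [Finset.mem_compl] at hi
        rw [if_neg]
        rintro (h | h)
        · exact hi (h ▸ hB.1)
        · exact hi (h ▸ hB.2)
      · rw [not_and_or] at hB
        symm
        rw [← Finset.compl_eq_univ_sdiff]
        rcases hB with hB | hB
        · have hz : ∏ i ∈ Bᶜ, (if i = p.1 ∨ i = p.2 then (0 : ℝ) else 1 + x) = 0 :=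
            Finset.prod_eq_zero (Finset.mem_compl.2 hB) (if_pos (Or.inl rfl))
          rw [hz, mul_zero]
        · have hz : ∏ i ∈ Bᶜ, (if i = p.1 ∨ i = p.2 then (0 : ℝ) else 1 + x) = 0 :=
            Finset.prod_eq_zero (Finset.mem_compl.2 hB) (if_pos (Or.inr rfl))
          rw [hz, mul_zero]
    rw [h1, ← Finset.prod_add]
    rw [← Finset.mul_prod_erase univ _ (Finset.mem_univ p.1),
      ← Finset.mul_prod_erase (univ.erase p.1) _ (Finset.mem_erase.2 ⟨hne.symm, Finset.mem_univ p.2⟩)]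
    rw [if_pos (Or.inl rfl), if_pos (Or.inr rfl), add_zero]
    have h2 : ∏ i ∈ (univ.erase p.1).erase p.2, (x + if i = p.1 ∨ i = p.2 then (0 : ℝ) else 1 + x) ≤
        (1 + 2 * x) ^ Fintype.card ι := by
      calc ∏ i ∈ (univ.erase p.1).erase p.2, (x + if i = p.1 ∨ i = p.2 then (0 : ℝ) else 1 + x) ≤
          ∏ i ∈ (univ.erase p.1).erase p.2, (1 + 2 * x) := by
            refine Finset.prod_le_prod (fun i _ => ?_) fun i _ => ?_
            · split_ifs <;> linarith
            · split_ifs <;> linarith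
        _ = (1 + 2 * x) ^ ((univ.erase p.1).erase p.2).card := by rw [Finset.prod_const]
        _ ≤ (1 + 2 * x) ^ Fintype.card ι :=
            pow_le_pow_right₀ (by linarith) (Finset.card_le_univ _)
    calc x * (x * ∏ i ∈ (univ.erase p.1).erase p.2,
          (x + if i = p.1 ∨ i = p.2 then (0 : ℝ) else 1 + x)) =
          x ^ 2 * ∏ i ∈ (univ.erase p.1).erase p.2,
            (x + if i = p.1 ∨ i = p.2 then (0 : ℝ) else 1 + x) := by ring
      _ ≤ x ^ 2 * (1 + 2 * x) ^ Fintype.card ι := mul_le_mul_of_nonneg_left h2 (sq_nonneg x)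
  have h3 := (key.trans (Finset.sum_le_sum inner))
  rw [Finset.sum_const, nsmul_eq_mul] at h3
  have h4 : (((univ : Finset (ι × ι)).filter (fun p => p.1 ≠ p.2)).card : ℝ) ≤
      (Fintype.card ι : ℝ) ^ 2 := by
    have : ((univ : Finset (ι × ι)).filter (fun p => p.1 ≠ p.2)).card ≤ Fintype.card ι ^ 2 := by
      refine (Finset.card_le_univ _).trans ?_
      rw [Fintype.card_prod, sq]
    exact_mod_cast this
  have h5 : 0 ≤ x ^ 2 * (1 + 2 * x) ^ Fintype.card ι := by positivity
  nlinarith [mul_le_mul_of_nonneg_right h4 h5]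

end Pool.Agent.H63.WS
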