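import Pool.Agent.H63.WS.Mean
set_option autoImplicit false
set_option linter.unusedSectionVars false

namespace Pool.Agent.H63.WS

open NumberField IsDedekindDomain Filter Topology Finset
open Pool.Agent.TH553.ST Pool.Agent.TH553.RS Pool.Agent.W540.BE
open Pool.Agent.X289.Main Pool.Agent.X289.Uch Pool.Agent.X289.Al Pool.Agent.X289.Multi

theorem comb_sub (M : ℕ) (c d : ℕ → ℝ) (x : ℝ) :
    comb M (fun k => c k - d k) x = comb M c x - comb M d x := by
  unfold comb
  rw [← Finset.sum_sub_distrib]
  exact Finset.sum_congr rfl fun k _ => by ring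

theorem comb_add (M : ℕ) (c d : ℕ → ℝ) (x : ℝ) :
    comb M (fun k => c k + d k) x = comb M c x + comb M d x := by
  unfold comb
  rw [← Finset.sum_add_distrib]
  exact Finset.sum_congr rfl fun k _ => by ring

theorem comb_const {M : ℕ} (hM : 1 ≤ M) (c x : ℝ) :
    comb M (fun k => if k = 0 then c else 0) x = c := by
  unfold comb
  rw [Finset.sum_eq_single 0]
  · simp [Uc]
  · intro k _ hk
    change (if k = 0 then c else 0) * Uc k x = 0
    rw [if_neg hk, zero_mul]
  · intro h
    exact absurd (Finset.mem_range.2 (by omega)) h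

/-- the data of a step at `β`, `0 ≤ β ≤ π` -/
theorem stepData (hstep : S_STEP) {M : ℕ} (hM : 1 ≤ M) {β : ℝ} (h0 : 0 ≤ β) (h1 : β ≤ Real.pi) :
    ∃ p e : ℕ → ℝ, e 0 ≤ 2 / M ∧ (2 ≤ M → e 0 = endErr M β) ∧
      (∀ t ∈ Set.Icc (0 : ℝ) Real.pi, ∀ c ∈ Set.Icc (0 : ℝ) 1, (t < β → c = 1) → (β < t → c = 0) →
        (β = 0 → t = 0 → c = 0) → (β = Real.pi → t = Real.pi → c = 1) →
        |c - comb M p (Real.cos t)| ≤ comb M e (Real.cos t)) ∧
      (∀ t ∈ Set.Icc (0 : ℝ) Real.pi, comb M e (Real.cos t) ≤ 1) ∧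
      |st 0 β - p 0| ≤ e 0 := by
  have hpi := Real.pi_pos
  rcases eq_or_lt_of_le h0 with h2 | h2
  · subst h2
    have hz : ∀ x, comb M (fun k => if k = 0 then 0 else 0) x = 0 := fun x => comb_const hM 0 x
    refine ⟨fun k => if k = 0 then 0 else 0, fun k => if k = 0 then 0 else 0, ?_,
      fun _ => by simp [endErr], ?_, ?_, by simp [st]⟩
    · change (if (0 : ℕ) = 0 then (0 : ℝ) else 0) ≤ 2 / M
      rw [if_pos rfl]
      positivity
    · intro t ht c hc _ h4 h5 _
      rw [hz]
      have : c = 0 := by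
        rcases eq_or_lt_of_le ht.1 with h6 | h6
        · exact h5 rfl h6.symm
        · exact h4 h6
      simp [this]
    · intro t _
      rw [hz]
      norm_num
  · rcases eq_or_lt_of_le h1 with h3 | h3
    · subst h3
      have hz : ∀ x, comb M (fun k => if k = 0 then 0 else 0) x = 0 := fun x => comb_const hM 0 x
      have ho : ∀ x, comb M (fun k => if k = 0 then 1 else 0) x = 1 := fun x => comb_const hM 1 x
      refine ⟨fun k => if k = 0 then 1 else 0, fun k => if k = 0 then 0 else 0, ?_,
        fun _ => by simp [endErr], ?_, ?_, ?_⟩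
      · change (if (0 : ℕ) = 0 then (0 : ℝ) else 0) ≤ 2 / M
        rw [if_pos rfl]
        positivity
      · intro t ht c hc h4 _ _ h6
        rw [hz, ho]
        have : c = 1 := by
          rcases eq_or_lt_of_le ht.2 with h7 | h7
          · exact h6 rfl h7
          · exact h4 h7
        simp [this]
      · intro t _
        rw [hz]
        norm_num
      · have : st 0 Real.pi = 1 := by
          unfold st
          rw [integral_sin_sq]
          simp
        simp [this]
    · obtain ⟨p, e, he, he2, hc, hb, hm⟩ := hstep M β hM h2 h3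
      refine ⟨p, e, he, fun h => ?_, fun t ht c hcc h4 h5 _ _ => hc t ht c hcc h4 h5, hb, hm⟩
      rw [he2 h, endErr, if_neg]
      push Not
      exact ⟨h2.ne', h3.ne⟩

/-- the approximation of the indicator function of an interval -/
theorem approx_interval (hstep : S_STEP) {X : Type} {θ : X → ℝ} (hθ : ∀ v, θ v ∈ Set.Icc 0 Real.pi)
    {α β : ℝ} {I : Set ℝ} (hI : IsInterval α β I) {M : ℕ} (hM : 1 ≤ M) :
    Approx (fun v => I.indicator (fun _ => (1 : ℝ)) (θ v)) (fun v => Real.cos (θ v)) (st α β) M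
      (4 / M) ∧
    (2 ≤ M → Approx (fun v => I.indicator (fun _ => (1 : ℝ)) (θ v)) (fun v => Real.cos (θ v))
      (st α β) M (endErr M α + endErr M β)) := by
  obtain ⟨h0, h1, h2, h3, h4, h5, h6⟩ := hI
  obtain ⟨p, e, he, he2, hc, hb, hm⟩ := stepData hstep hM (h0.trans h1.le) h2
  obtain ⟨p', e', he', he2', hc', hb', hm'⟩ := stepData hstep hM h0 (h1.le.trans h2)
  have key : ∀ δ : ℝ, e 0 + e' 0 ≤ δ →
      Approx (fun v => I.indicator (fun _ => (1 : ℝ)) (θ v)) (fun v => Real.cos (θ v)) (st α β) M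
        δ := by
    intro δ hδ
    refine ⟨fun k => p k - p' k, fun k => e k + e' k, hδ, ?_, ?_, ?_⟩
    · intro v
      rw [comb_sub, comb_add]
      classical
      set t := θ v
      have ht : t ∈ Set.Icc 0 Real.pi := hθ v
      -- the two steps
      set s : ℝ := if t < β ∨ (t = β ∧ β ∈ I) then 1 else 0 with hs
      set s' : ℝ := if t < α ∨ (t = α ∧ α ∉ I) then 1 else 0 with hs'
      have e1 : I.indicator (fun _ => (1 : ℝ)) t = s - s' := by
        by_cases ht1 : t ∈ I
        · have h7 := h4 ht1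
          rw [Set.indicator_of_mem ht1]
          have h8 : s = 1 := by
            rw [hs, if_pos]
            rcases eq_or_lt_of_le h7.2 with h9 | h9
            · exact Or.inr ⟨h9, h9 ▸ ht1⟩
            · exact Or.inl h9
          have h9 : s' = 0 := by
            rw [hs', if_neg]
            rintro (h10 | ⟨h10, h11⟩)
            · exact absurd h7.1 (not_le.2 h10)
            · exact h11 (h10 ▸ ht1)
          rw [h8, h9]
          ring
        · rw [Set.indicator_of_notMem ht1]
          rcases lt_trichotomy t α with h7 | h7 | h7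
          · have h8 : s = 1 := by rw [hs, if_pos (Or.inl (h7.trans h1))]
            have h9 : s' = 1 := by rw [hs', if_pos (Or.inl h7)]
            rw [h8, h9]
            ring
          · have h8 : s = 1 := by rw [hs, if_pos (Or.inl (h7 ▸ h1))]
            have h9 : s' = 1 := by
              rw [hs', if_pos]
              exact Or.inr ⟨h7, h7 ▸ ht1⟩
            rw [h8, h9]
            ring
          · have h9 : s' = 0 := by
              rw [hs', if_neg]
              rintro (h10 | ⟨h10, -⟩)
              · exact absurd h7 (not_lt.2 h10.le)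
              · exact absurd h7 (not_lt.2 h10.le)
            have h8 : s = 0 := by
              rw [hs, if_neg]
              rintro (h10 | ⟨h10, h11⟩)
              · exact ht1 (h3 ⟨h7, h10⟩)
              · exact ht1 (h10 ▸ h11)
            rw [h8, h9]
            ring
      have hs01 : s ∈ Set.Icc (0 : ℝ) 1 := by
        rw [hs]
        split_ifs <;> simp
      have hs01' : s' ∈ Set.Icc (0 : ℝ) 1 := by
        rw [hs']
        split_ifs <;> simp
      have a1 := hc t ht s hs01 (fun h7 => by rw [hs, if_pos (Or.inl h7)])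
        (fun h7 => by
          rw [hs, if_neg]
          rintro (h10 | ⟨h10, -⟩)
          · exact absurd h7 (not_lt.2 h10.le)
          · exact absurd h7 (not_lt.2 h10.le))
        (fun h7 => absurd (h0.trans_lt h1) (by rw [h7]; exact lt_irrefl _))
        (fun h7 h8 => by
          rw [hs, if_pos]
          exact Or.inr ⟨by rw [h8, h7], h6 h7⟩)
      have a2 := hc' t ht s' hs01' (fun h7 => by rw [hs', if_pos (Or.inl h7)])
        (fun h7 => by
          rw [hs', if_neg]
          rintro (h10 | ⟨h10, -⟩)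
          · exact absurd h7 (not_lt.2 h10.le)
          · exact absurd h7 (not_lt.2 h10.le))
        (fun h7 h8 => by
          rw [hs', if_neg]
          rintro (h10 | ⟨-, h10⟩)
          · rw [h7, h8] at h10
            exact lt_irrefl _ h10
          · exact h10 (h5 h7))
        (fun h7 => absurd (h1.trans_le h2) (by rw [h7]; exact lt_irrefl _))
      have e2 : (fun v => I.indicator (fun _ => (1 : ℝ)) (θ v)) v = s - s' := e1
      rw [e2]
      have e3 : s - s' - (comb M p (Real.cos t) - comb M p' (Real.cos t)) =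
          (s - comb M p (Real.cos t)) - (s' - comb M p' (Real.cos t)) := by ring
      rw [e3]
      exact (abs_sub _ _).trans (add_le_add a1 a2)
    · intro v
      rw [comb_add]
      have := hb _ (hθ v)
      have := hb' _ (hθ v)
      linarith
    · have e4 : st α β = st 0 β - st 0 α := by
        unfold st
        rw [← mul_sub]
        congr 1
        have hi : ∀ a b : ℝ, IntervalIntegrable (fun t : ℝ => Real.sin t ^ 2) MeasureTheory.volume a b :=
          fun a b => (by fun_prop : Continuous fun t : ℝ => Real.sin t ^ 2).intervalIntegrable a b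
        rw [← intervalIntegral.integral_add_adjacent_intervals (hi 0 α) (hi α β)]
        ring
      rw [e4]
      have e3 : st 0 β - st 0 α - (p 0 - p' 0) = (st 0 β - p 0) - (st 0 α - p' 0) := by ring
      rw [e3]
      exact (abs_sub _ _).trans (add_le_add hm hm')
  refine ⟨key _ ?_, fun h => key _ ?_⟩
  · have : (4 : ℝ) / M = 2 / M + 2 / M := by ring
    rw [this]
    exact add_le_add he he'
  · rw [he2 h, he2' h, add_comm]

theorem st_mem {α β : ℝ} {I : Set ℝ} (hI : IsInterval α β I) : st α β ∈ Set.Icc (0 : ℝ) 1 := by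
  obtain ⟨h0, h1, h2, -⟩ := hI
  have hpi := Real.pi_pos
  have hi : ∀ a b : ℝ, IntervalIntegrable (fun t : ℝ => Real.sin t ^ 2) MeasureTheory.volume a b :=
    fun a b => (by fun_prop : Continuous fun t : ℝ => Real.sin t ^ 2).intervalIntegrable a b
  have hn : ∀ a b : ℝ, a ≤ b → 0 ≤ ∫ t in a..b, Real.sin t ^ 2 := fun a b h =>
    intervalIntegral.integral_nonneg h fun t _ => sq_nonneg _
  have ht : 2 / Real.pi * ∫ t in (0 : ℝ)..Real.pi, Real.sin t ^ 2 = 1 := by
    rw [integral_sin_sq]
    simp
  have hsum : (∫ t in (0 : ℝ)..Real.pi, Real.sin t ^ 2) = (∫ t in (0 : ℝ)..α, Real.sin t ^ 2) +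
      (∫ t in α..β, Real.sin t ^ 2) + ∫ t in β..Real.pi, Real.sin t ^ 2 := by
    rw [intervalIntegral.integral_add_adjacent_intervals (hi 0 α) (hi α β),
      intervalIntegral.integral_add_adjacent_intervals (hi 0 β) (hi β Real.pi)]
  refine ⟨mul_nonneg (by positivity) (hn _ _ h1.le), ?_⟩
  rw [← ht]
  unfold st
  refine mul_le_mul_of_nonneg_left ?_ (by positivity)
  rw [hsum]
  have := hn 0 α h0
  have := hn β Real.pi h2
  linarith

variable {K : Type} [Field K] [NumberField K]

theorem proportion_eq (T : Set (HeightOneSpectrum (𝓞 K))) (N : ℕ) :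
    proportion T N = mn (T.indicator fun _ => (1 : ℝ)) N := by
  classical
  have h2 : Nat.card {v : HeightOneSpectrum (𝓞 K) // Ideal.absNorm v.asIdeal ≤ N} =
      (upto K N).card := by
    have e : {v : HeightOneSpectrum (𝓞 K) // Ideal.absNorm v.asIdeal ≤ N} ≃ (upto K N) :=
      (Equiv.subtypeEquivRight fun v => (mem_upto)).symm
    rw [Nat.card_congr e, Nat.card_eq_fintype_card, Fintype.card_coe]
  have h3 : Nat.card {v : HeightOneSpectrum (𝓞 K) // Ideal.absNorm v.asIdeal ≤ N ∧ v ∈ T} =
      ((upto K N).filter fun v => v ∈ T).card := by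
    have e : {v : HeightOneSpectrum (𝓞 K) // Ideal.absNorm v.asIdeal ≤ N ∧ v ∈ T} ≃
        ((upto K N).filter fun v => v ∈ T) :=
      (Equiv.subtypeEquivRight fun v => by rw [Finset.mem_filter, mem_upto]; rfl).symm
    rw [Nat.card_congr e, Nat.card_eq_fintype_card, Fintype.card_coe]
  unfold proportion
  rw [h2, h3, mn_real]
  have h4 : ∑ v ∈ upto K N, T.indicator (fun _ => (1 : ℝ)) v =
      (((upto K N).filter fun v => v ∈ T).card : ℝ) := by
    rw [Finset.card_filter]
    push_cast
    refine Finset.sum_congr rfl fun v _ => ?_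
    by_cases h : v ∈ T
    · rw [Set.indicator_of_mem h, if_pos h]
    · rw [Set.indicator_of_notMem h, if_neg h]
  rw [h4]
  ring

variable {ι : Type} [Fintype ι] [DecidableEq ι] {E : Type}
  {θ : ι → HeightOneSpectrum (𝓞 K) → ℝ} {w : ι → E → ℕ}

/-- the bound of the main estimate -/
noncomputable def bound (k : ℕ) (ε : ι → ℝ) : ℝ :=
  2 * ∑ B ∈ univ.powerset.filter (fun B : Finset ι => k ≤ B.card),
    (∏ i ∈ B, ε i) * ∏ i ∈ Bᶜ, (1 + ε i)

theorem prod_indicator (I : ι → Set ℝ) (v : HeightOneSpectrum (𝓞 K)) :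
    ({v : HeightOneSpectrum (𝓞 K) | ∀ i, θ i v ∈ I i}.indicator (fun _ => (1 : ℝ))) v =
      ∏ i, (I i).indicator (fun _ => (1 : ℝ)) (θ i v) := by
  classical
  by_cases h : ∀ i, θ i v ∈ I i
  · rw [Set.indicator_of_mem (by exact h)]
    exact (Finset.prod_eq_one fun i _ => Set.indicator_of_mem (h i) _).symm
  · rw [Set.indicator_of_notMem (by exact h)]
    push Not at h
    obtain ⟨i, hi⟩ := h
    exact (Finset.prod_eq_zero (Finset.mem_univ i) (Set.indicator_of_notMem hi _)).symm

theorem main (hstep : S_STEP) (habs : S_ABS) (h : Newforms θ w) {A : ι → ℕ} {k : ℕ}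
    (hA : ∀ i, 2 ≤ A i) (hk : 2 ≤ k) (hs : Sums w A k) {α β : ι → ℝ} {I : ι → Set ℝ}
    (hI : ∀ i, IsInterval (α i) (β i) (I i)) {η : ℝ} (hη : 0 < η) :
    ∀ᶠ N : ℕ in atTop, |proportion {v | ∀ i, θ i v ∈ I i} N - ∏ i, st (α i) (β i)| ≤
      bound k (fun i => endErr (A i) (α i) + endErr (A i) (β i)) + η := by
  by_contra hcon
  rw [Filter.not_eventually] at hcon
  obtain ⟨U, hU⟩ : ∃ U : Ultrafilter ℕ, (U : Filter ℕ) ≤ atTop ⊓ 𝓟 {N : ℕ |
      ¬ |proportion {v | ∀ i, θ i v ∈ I i} N - ∏ i, st (α i) (β i)| ≤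
        bound k (fun i => endErr (A i) (α i) + endErr (A i) (β i)) + η} := by
    have : (atTop ⊓ 𝓟 {N : ℕ |
      ¬ |proportion {v | ∀ i, θ i v ∈ I i} N - ∏ i, st (α i) (β i)| ≤
        bound k (fun i => endErr (A i) (α i) + endErr (A i) (β i)) + η}).NeBot :=
      Filter.frequently_mem_iff_neBot.1 hcon
    exact ⟨Ultrafilter.of _, Ultrafilter.of_le _⟩
  have hUt : (U : Filter ℕ) ≤ atTop := hU.trans inf_le_left
  have hbad : ∀ᶠ N in (U : Filter ℕ), ¬ |proportion {v | ∀ i, θ i v ∈ I i} N -
      ∏ i, st (α i) (β i)| ≤ bound k (fun i => endErr (A i) (α i) + endErr (A i) (β i)) + η := by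
    have := hU.trans inf_le_right
    rwa [le_principal_iff] at this
  have hx : ∀ i v, Real.cos (θ i v) ∈ Set.Icc (-1 : ℝ) 1 := fun i v =>
    ⟨Real.neg_one_le_cos _, Real.cos_le_one _⟩
  have hc01 : ∀ i v, (I i).indicator (fun _ => (1 : ℝ)) (θ i v) ∈ Set.Icc (0 : ℝ) 1 := by
    intro i v
    by_cases h1 : θ i v ∈ I i
    · rw [Set.indicator_of_mem h1]; simp
    · rw [Set.indicator_of_notMem h1]; simp
  have h1 := habs (HeightOneSpectrum (𝓞 K)) ι (Lm U) (isMean_Lm hUt)
    (fun i v => Real.cos (θ i v)) hx A (fun i => by have := hA i; omega) k hk (vanish_of h hs hUt)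
    (fun i v => (I i).indicator (fun _ => (1 : ℝ)) (θ i v)) hc01 (fun i => st (α i) (β i))
    (fun i => endErr (A i) (α i) + endErr (A i) (β i)) (fun i => st_mem (hI i))
    (fun i => (approx_interval hstep (h.angle i) (hI i) (by have := hA i; omega)).2 (hA i))
    (fun i δ hδ => by
      obtain ⟨M, hM⟩ := exists_nat_gt (4 / δ)
      have hMp : (0 : ℝ) < M := (by positivity : (0 : ℝ) < 4 / δ).trans hM
      have hM1 : 1 ≤ M := by
        have : 0 < M := by exact_mod_cast hMp
        omega
      refine ⟨M, hM1, ?_⟩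
      obtain ⟨p, e, he, h2⟩ := (approx_interval hstep (h.angle i) (hI i) hM1).1
      refine ⟨p, e, he.trans ?_, h2⟩
      rw [div_le_iff₀ hMp]
      rw [div_lt_iff₀ hδ] at hM
      linarith)
  have hbd : Bdd (fun v : HeightOneSpectrum (𝓞 K) =>
      ∏ i, (I i).indicator (fun _ => (1 : ℝ)) (θ i v)) := by
    refine ⟨1, fun v => ?_⟩
    rw [Finset.abs_prod]
    refine Finset.prod_le_one (fun i _ => abs_nonneg _) fun i _ => ?_
    rw [abs_of_nonneg (hc01 i v).1]
    exact (hc01 i v).2
  have h2 := tendsto_Lm U hbd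
  have h3 : Tendsto (fun N => |proportion {v | ∀ i, θ i v ∈ I i} N - ∏ i, st (α i) (β i)|) U
      (𝓝 |Lm U (fun v : HeightOneSpectrum (𝓞 K) => ∏ i, (I i).indicator (fun _ => (1 : ℝ)) (θ i v)) -
        ∏ i, st (α i) (β i)|) := by
    refine (h2.sub_const _).abs.congr fun N => ?_
    rw [proportion_eq]
    congr 3
    funext v
    exact (prod_indicator I v).symm
  have h4 : ∀ᶠ N in (U : Filter ℕ), |proportion {v | ∀ i, θ i v ∈ I i} N -
      ∏ i, st (α i) (β i)| < bound k (fun i => endErr (A i) (α i) + endErr (A i) (β i)) + η := by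
    refine h3.eventually_lt_const (lt_of_le_of_lt h1 ?_)
    unfold bound
    linarith
  obtain ⟨N, h5, h6⟩ := (hbad.and h4).exists
  exact h5 h6.le

end Pool.Agent.H63.WS
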