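import Pool.Agent.H63.WS.Defs
set_option autoImplicit false
set_option linter.unusedSectionVars false

namespace Pool.Agent.H63.WS

open NumberField IsDedekindDomain Filter Topology Finset
open Pool.Agent.TH553.ST Pool.Agent.TH553.RS Pool.Agent.W540.BE
open Pool.Agent.X289.Main Pool.Agent.X289.Uch Pool.Agent.X289.Al Pool.Agent.X289.Multi

variable {K : Type} [Field K] [NumberField K]

/-- the limit of the averages along an ultrafilter -/
noncomputable def Lm (U : Ultrafilter ℕ) (f : HeightOneSpectrum (𝓞 K) → ℝ) : ℝ :=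
  limUnder (U : Filter ℕ) (mn f)

theorem mn_real (f : HeightOneSpectrum (𝓞 K) → ℝ) (N : ℕ) :
    mn f N = ((upto K N).card : ℝ)⁻¹ * ∑ v ∈ upto K N, f v := rfl

theorem mn_mono {f g : HeightOneSpectrum (𝓞 K) → ℝ} (h : ∀ v, f v ≤ g v) (N : ℕ) :
    mn f N ≤ mn g N := by
  rw [mn_real, mn_real]
  exact mul_le_mul_of_nonneg_left (Finset.sum_le_sum fun v _ => h v) (by positivity)

theorem bdd_nonneg {f : HeightOneSpectrum (𝓞 K) → ℝ} (hf : Bdd f) : ∃ C : ℝ, 0 ≤ C ∧ ∀ v, |f v| ≤ C := by
  obtain ⟨C, hC⟩ := hf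
  exact ⟨|C|, abs_nonneg _, fun v => (hC v).trans (le_abs_self C)⟩

theorem tendsto_Lm (U : Ultrafilter ℕ) {f : HeightOneSpectrum (𝓞 K) → ℝ} (hf : Bdd f) :
    Tendsto (mn f) U (𝓝 (Lm U f)) := by
  obtain ⟨C, hC0, hC⟩ := bdd_nonneg hf
  apply tendsto_nhds_limUnder
  have h1 : ∀ N, mn f N ∈ Set.Icc (-C) C := fun N => abs_le.1 (mn_abs_le hC0 hC N)
  have h2 : ((U.map (mn f) : Ultrafilter ℝ) : Filter ℝ) ≤ 𝓟 (Set.Icc (-C) C) := by
    rw [le_principal_iff, Ultrafilter.mem_coe, Ultrafilter.mem_map]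
    exact Filter.Eventually.of_forall (fun N => h1 N)
  obtain ⟨x, -, hx⟩ := isCompact_Icc.ultrafilter_le_nhds _ h2
  exact ⟨x, hx⟩

theorem Lm_of_tendsto {U : Ultrafilter ℕ} (hU : (U : Filter ℕ) ≤ atTop)
    {f : HeightOneSpectrum (𝓞 K) → ℝ} {c : ℝ} (h : Tendsto (mn f) atTop (𝓝 c)) : Lm U f = c :=
  (h.mono_left hU).limUnder_eq

theorem isMean_Lm {U : Ultrafilter ℕ} (hU : (U : Filter ℕ) ≤ atTop) :
    IsMean (Lm (K := K) U) where
  add f g hf hg := by
    have h1 := (tendsto_Lm U hf).add (tendsto_Lm U hg)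
    have h2 : Tendsto (mn fun v => f v + g v) U (𝓝 (Lm U f + Lm U g)) :=
      h1.congr fun n => (mn_add f g n).symm
    exact h2.limUnder_eq
  smul c f hf := by
    have h1 := (tendsto_Lm U hf).const_mul c
    have h2 : Tendsto (mn fun v => c * f v) U (𝓝 (c * Lm U f)) :=
      h1.congr fun n => (mn_smul c f n).symm
    exact h2.limUnder_eq
  mono f g hf hg h :=
    le_of_tendsto_of_tendsto' (tendsto_Lm U hf) (tendsto_Lm U hg) fun N => mn_mono h N
  one := Lm_of_tendsto hU mn_one

variable {ι : Type} [Fintype ι] [DecidableEq ι] {E : Type}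
  {θ : ι → HeightOneSpectrum (𝓞 K) → ℝ} {w : ι → E → ℕ}

/-- the averages of the products which are known -/
theorem avg_known {c d : ι → ℕ}
    (h : ∀ τ : ℝ, ∃ Λ : ℂ → ℂ, IsContinuation θ c d τ Λ ∧
      meromorphicOrderAt Λ (1 + τ * Complex.I) = if c = d ∧ τ = 0 then -1 else 0) :
    Tendsto (mn fun v => (∏ i, Uc (c i) (Real.cos (θ i v))) * ∏ i, Uc (d i) (Real.cos (θ i v)))
      atTop (𝓝 (if c = d then 1 else 0)) := by
  have hn : ∀ v (k : ((i : ι) → Fin (c i + 1)) × ((i : ι) → Fin (d i + 1))),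
      ‖am θ c v k.1 * am θ d v k.2‖ = 1 := fun v k => by
    rw [norm_mul, norm_am, norm_am, one_mul]
  have hs : ∀ v, ∑ k : ((i : ι) → Fin (c i + 1)) × ((i : ι) → Fin (d i + 1)),
      am θ c v k.1 * am θ d v k.2 =
      (((∏ i, Cf (c i) (Real.cos (θ i v))) * ∏ i, Cf (d i) (Real.cos (θ i v)) : ℝ) : ℂ) :=
    fun v => by
      rw [Fintype.sum_prod_type, Complex.ofReal_mul, ← sum_am, ← sum_am, Finset.sum_mul_sum]
  have h1 := avg_LA (α := fun v (k : ((i : ι) → Fin (c i + 1)) × ((i : ι) → Fin (d i + 1))) =>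
    am θ c v k.1 * am θ d v k.2) hn hs (c := if c = d then 1 else 0) fun τ => by
    obtain ⟨Λ, h1, h2⟩ := h τ
    refine ⟨Λ, h1, ?_⟩
    rw [h2]
    by_cases hcd : c = d
    · by_cases hτ : τ = 0
      · rw [if_pos ⟨hcd, hτ⟩, if_pos hcd, if_pos hτ]
        rfl
      · rw [if_neg (fun h => hτ h.2), if_neg hτ]
        rfl
    · rw [if_neg (fun h => hcd h.1), if_neg hcd]
      simp
  by_cases hcd : c = d
  · rw [if_pos hcd] at h1 ⊢
    rw [Int.cast_one] at h1
    exact h1
  · rw [if_neg hcd] at h1 ⊢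
    rw [Int.cast_zero] at h1
    exact h1

theorem Uc_mul (c d : ℕ) (x : ℝ) :
    Uc (c + 1 + (d + 1)) x = Uc (c + 1) x * Uc (d + 1) x - Uc c x * Uc d x := by
  have key : ∀ d, (Uc (c + 1 + (d + 1)) x = Uc (c + 1) x * Uc (d + 1) x - Uc c x * Uc d x) ∧
      (Uc (c + 1 + (d + 2)) x = Uc (c + 1) x * Uc (d + 2) x - Uc c x * Uc (d + 1) x) := by
    intro d
    have hr : ∀ l, Uc (l + 2) x = 2 * x * Uc (l + 1) x - Uc l x := fun l => Cf_add_two l x
    have h0 : Uc 0 x = 1 := Cf_zero x
    have h1 : Uc 1 x = 2 * x := Cf_one x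
    induction d with
    | zero =>
      have e1 : Uc (c + 1 + (0 + 1)) x = 2 * x * Uc (c + 1) x - Uc c x := hr c
      have e2 : Uc (c + 1 + (0 + 2)) x = 2 * x * Uc (c + 2) x - Uc (c + 1) x := hr (c + 1)
      have e3 : Uc (0 + 2) x = 2 * x * Uc (0 + 1) x - Uc 0 x := hr 0
      have e4 : Uc (c + 2) x = 2 * x * Uc (c + 1) x - Uc c x := hr c
      have e5 : Uc (0 + 1) x = 2 * x := h1
      constructor
      · rw [e1, e5, h0]
        ring
      · rw [e2, e3, e4, e5, h0]
        ring
    | succ d ih =>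
      refine ⟨ih.2, ?_⟩
      have e1 : Uc (c + 1 + (d + 1 + 2)) x = 2 * x * Uc (c + 1 + (d + 2)) x -
          Uc (c + 1 + (d + 1)) x := hr (c + 1 + (d + 1))
      have e2 : Uc (d + 1 + 2) x = 2 * x * Uc (d + 2) x - Uc (d + 1) x := hr (d + 1)
      have e3 : Uc (d + 1 + 1) x = 2 * x * Uc (d + 1) x - Uc d x := hr d
      have e4 : Uc (d + 2) x = Uc (d + 1 + 1) x := rfl
      rw [e1, ih.1, ih.2, e2, e4, e3]
      ring
  exact (key d).1

theorem bdd_Uc {X : Type} {x : X → ℝ} (hx : ∀ v, x v ∈ Set.Icc (-1 : ℝ) 1) (l : ℕ) :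
    Bdd fun v => Uc l (x v) := by
  obtain ⟨C, hC⟩ := isCompact_Icc.exists_bound_of_continuousOn (cont_Cf l).continuousOn
    (s := Set.Icc (-1 : ℝ) 1)
  exact ⟨C, fun v => hC _ (hx v)⟩

theorem bdd_mul {X : Type} {f g : X → ℝ} (hf : Bdd f) (hg : Bdd g) : Bdd fun v => f v * g v := by
  obtain ⟨C, hC⟩ := hf
  obtain ⟨D, hD⟩ := hg
  refine ⟨|C| * |D|, fun v => ?_⟩
  rw [abs_mul]
  exact mul_le_mul ((hC v).trans (le_abs_self C)) ((hD v).trans (le_abs_self D)) (abs_nonneg _)
    (abs_nonneg _)

theorem bdd_prod {X : Type} {κ : Type} (s : Finset κ) {f : κ → X → ℝ} (hf : ∀ i, Bdd (f i)) :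
    Bdd fun v => ∏ i ∈ s, f i v := by
  classical
  induction s using Finset.induction_on with
  | empty => exact ⟨1, fun v => by simp⟩
  | insert a s ha ih =>
    have := bdd_mul (hf a) ih
    obtain ⟨C, hC⟩ := this
    refine ⟨C, fun v => ?_⟩
    change |∏ i ∈ insert a s, f i v| ≤ C
    rw [Finset.prod_insert ha]
    exact hC v

theorem IsMean.sum {X : Type} {L : (X → ℝ) → ℝ} (hL : IsMean L) {κ : Type} (s : Finset κ)
    {f : κ → X → ℝ} (hf : ∀ i ∈ s, Bdd (f i)) :
    L (fun v => ∑ i ∈ s, f i v) = ∑ i ∈ s, L (f i) := by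
  classical
  induction s using Finset.induction_on with
  | empty =>
    have h := hL.smul 0 (fun _ => 1) ⟨1, fun v => by simp⟩
    simp only [zero_mul] at h
    simpa using h
  | insert a s ha ih =>
    have hb : Bdd fun v => ∑ i ∈ s, f i v := by
      have : ∀ t : Finset κ, t ⊆ s → Bdd fun v => ∑ i ∈ t, f i v := by
        intro t
        induction t using Finset.induction_on with
        | empty => exact fun _ => ⟨0, fun v => by simp⟩
        | insert b t hb iht =>
          intro hts
          obtain ⟨C, hC⟩ := iht ((Finset.subset_insert b t).trans hts)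
          obtain ⟨D, hD⟩ := hf b (Finset.mem_insert_of_mem (hts (Finset.mem_insert_self b t)))
          refine ⟨D + C, fun v => ?_⟩
          change |∑ i ∈ insert b t, f i v| ≤ D + C
          rw [Finset.sum_insert hb]
          exact (abs_add_le _ _).trans (add_le_add (hD v) (hC v))
      exact this s (Finset.Subset.refl s)
    rw [Finset.sum_insert ha, ← ih fun i hi => hf i (Finset.mem_insert_of_mem hi),
      ← hL.add _ _ (hf a (Finset.mem_insert_self a s)) hb]
    congr 1
    funext v
    rw [Finset.sum_insert ha]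

/-- from the Rankin-Selberg products to the characters -/
theorem vanish_sum {X : Type} {L : (X → ℝ) → ℝ} (hL : IsMean L) {x : ι → X → ℝ}
    (hx : ∀ i v, x i v ∈ Set.Icc (-1 : ℝ) 1) {w : ι → E → ℕ}
    (hRS : ∀ c d : ι → ℕ, Distinct w c → Distinct w d →
      L (fun v => (∏ i, Uc (c i) (x i v)) * ∏ i, Uc (d i) (x i v)) = if c = d then 1 else 0)
    {a c d : ι → ℕ} (ha : a ≠ 0) (hs : ∀ i, a i = c i + d i) (hc : Distinct w c)
    (hd : Distinct w d) : L (fun v => ∏ i, Uc (a i) (x i v)) = 0 := by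
  classical
  set P : Finset ι := univ.filter fun i => 1 ≤ c i ∧ 1 ≤ d i with hP
  -- the two summands
  let f : ι → X → ℝ := fun i v => Uc (c i) (x i v) * Uc (d i) (x i v)
  let g : ι → X → ℝ := fun i v => if i ∈ P then -(Uc (c i - 1) (x i v) * Uc (d i - 1) (x i v)) else 0
  have h1 : ∀ i v, Uc (a i) (x i v) = g i v + f i v := by
    intro i v
    by_cases hi : i ∈ P
    · have hi' := (Finset.mem_filter.1 hi).2
      obtain ⟨c', hc'⟩ := Nat.exists_eq_add_of_le hi'.1
      obtain ⟨d', hd'⟩ := Nat.exists_eq_add_of_le hi'.2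
      have e := Uc_mul c' d' (x i v)
      simp only [f, g, if_pos hi]
      rw [hs i, hc', hd']
      have e1 : 1 + c' + (1 + d') = c' + 1 + (d' + 1) := by ring
      have e2 : 1 + c' = c' + 1 := by ring
      have e3 : 1 + d' = d' + 1 := by ring
      rw [e1, e, e2, e3, Nat.add_sub_cancel, Nat.add_sub_cancel]
      ring
    · simp only [f, g, if_neg hi]
      rw [hP, Finset.mem_filter, not_and_or] at hi
      rcases hi with hi | hi
      · exact absurd (Finset.mem_univ i) hi
      · rw [not_and_or] at hi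
        rcases hi with hi | hi
        · have : c i = 0 := by omega
          rw [hs i, this, zero_add]
          have : Uc 0 (x i v) = 1 := Cf_zero _
          rw [this]
          ring
        · have : d i = 0 := by omega
          rw [hs i, this, add_zero]
          have : Uc 0 (x i v) = 1 := Cf_zero _
          rw [this]
          ring
  have h2 : (fun v => ∏ i, Uc (a i) (x i v)) = fun v => ∑ J ∈ (univ : Finset ι).powerset,
      (∏ i ∈ J, g i v) * ∏ i ∈ univ \ J, f i v := by
    funext v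
    rw [← Finset.prod_add]
    exact Finset.prod_congr rfl fun i _ => h1 i v
  have hbf : ∀ i, Bdd (f i) := fun i => bdd_mul (bdd_Uc (hx i) _) (bdd_Uc (hx i) _)
  have hbg : ∀ i, Bdd (g i) := fun i => by
    obtain ⟨C, hC⟩ := bdd_mul (bdd_Uc (hx i) (c i - 1)) (bdd_Uc (hx i) (d i - 1))
    refine ⟨|C|, fun v => ?_⟩
    simp only [g]
    split_ifs
    · rw [abs_neg]
      exact (hC v).trans (le_abs_self C)
    · rw [abs_zero]
      exact abs_nonneg C
  rw [h2, hL.sum _ fun J _ => bdd_mul (bdd_prod J hbg) (bdd_prod _ hbf)]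
  have hle : ∀ (J : Finset ι) (c : ι → ℕ) (i : ι), (if i ∈ J then c i - 1 else c i) ≤ c i := by
    intro J c i
    split_ifs <;> omega
  -- one term
  have h3 : ∀ J ∈ (univ : Finset ι).powerset,
      L (fun v => (∏ i ∈ J, g i v) * ∏ i ∈ univ \ J, f i v) =
        if J ⊆ P then (-1 : ℝ) ^ J.card * (if c = d then 1 else 0) else 0 := by
    intro J _
    split_ifs with hJ hcd
    · -- c = d
      have h4 : (fun v => (∏ i ∈ J, g i v) * ∏ i ∈ univ \ J, f i v) = fun v => (-1 : ℝ) ^ J.card *
          ((∏ i, Uc (if i ∈ J then c i - 1 else c i) (x i v)) *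
            ∏ i, Uc (if i ∈ J then d i - 1 else d i) (x i v)) := by
        funext v
        rw [← Finset.prod_mul_distrib, ← Finset.prod_sdiff (Finset.subset_univ J), mul_comm]
        have e1 : ∏ i ∈ univ \ J, f i v = ∏ i ∈ univ \ J,
            Uc (if i ∈ J then c i - 1 else c i) (x i v) *
              Uc (if i ∈ J then d i - 1 else d i) (x i v) := by
          refine Finset.prod_congr rfl fun i hi => ?_
          have := (Finset.mem_sdiff.1 hi).2
          rw [if_neg this, if_neg this]
        have e2 : ∏ i ∈ J, g i v = (-1 : ℝ) ^ J.card * ∏ i ∈ J,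
            Uc (if i ∈ J then c i - 1 else c i) (x i v) *
              Uc (if i ∈ J then d i - 1 else d i) (x i v) := by
          rw [← Finset.prod_const, ← Finset.prod_mul_distrib]
          refine Finset.prod_congr rfl fun i hi => ?_
          simp only [g, if_pos (hJ hi), if_pos hi]
          ring
        rw [e1, e2]
        ring
      rw [h4, hL.smul _ _ (bdd_mul (bdd_prod _ fun i => bdd_Uc (hx i) _)
        (bdd_prod _ fun i => bdd_Uc (hx i) _)), hRS _ _ ?_ ?_]
      · rw [if_pos]
        funext i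
        rw [hcd]
      · intro e j l hj hl he
        exact hc e j l (fun i hi => (hj i hi).trans (hle J c i))
          (fun i hi => (hl i hi).trans (hle J c i)) he
      · intro e j l hj hl he
        exact hd e j l (fun i hi => (hj i hi).trans (hle J d i))
          (fun i hi => (hl i hi).trans (hle J d i)) he
    · have h4 : (fun v => (∏ i ∈ J, g i v) * ∏ i ∈ univ \ J, f i v) = fun v => (-1 : ℝ) ^ J.card *
          ((∏ i, Uc (if i ∈ J then c i - 1 else c i) (x i v)) *
            ∏ i, Uc (if i ∈ J then d i - 1 else d i) (x i v)) := by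
        funext v
        rw [← Finset.prod_mul_distrib, ← Finset.prod_sdiff (Finset.subset_univ J), mul_comm]
        have e1 : ∏ i ∈ univ \ J, f i v = ∏ i ∈ univ \ J,
            Uc (if i ∈ J then c i - 1 else c i) (x i v) *
              Uc (if i ∈ J then d i - 1 else d i) (x i v) := by
          refine Finset.prod_congr rfl fun i hi => ?_
          have := (Finset.mem_sdiff.1 hi).2
          rw [if_neg this, if_neg this]
        have e2 : ∏ i ∈ J, g i v = (-1 : ℝ) ^ J.card * ∏ i ∈ J,
            Uc (if i ∈ J then c i - 1 else c i) (x i v) *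
              Uc (if i ∈ J then d i - 1 else d i) (x i v) := by
          rw [← Finset.prod_const, ← Finset.prod_mul_distrib]
          refine Finset.prod_congr rfl fun i hi => ?_
          simp only [g, if_pos (hJ hi), if_pos hi]
          ring
        rw [e1, e2]
        ring
      rw [h4, hL.smul _ _ (bdd_mul (bdd_prod _ fun i => bdd_Uc (hx i) _)
        (bdd_prod _ fun i => bdd_Uc (hx i) _)), hRS _ _ ?_ ?_]
      · rw [if_neg]
        intro hne
        apply hcd
        funext i
        have h5 := congrFun hne i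
        by_cases hi : i ∈ J
        · have h6 := (Finset.mem_filter.1 (hJ hi)).2
          simp only [if_pos hi] at h5
          omega
        · simp only [if_neg hi] at h5
          exact h5
      · intro e j l hj hl he
        exact hc e j l (fun i hi => (hj i hi).trans (hle J c i))
          (fun i hi => (hl i hi).trans (hle J c i)) he
      · intro e j l hj hl he
        exact hd e j l (fun i hi => (hj i hi).trans (hle J d i))
          (fun i hi => (hl i hi).trans (hle J d i)) he
    · obtain ⟨i, hi, hiP⟩ := Finset.not_subset.1 hJ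
      have h4 : (fun v => (∏ i ∈ J, g i v) * ∏ i ∈ univ \ J, f i v) = fun v => 0 * 1 := by
        funext v
        rw [Finset.prod_eq_zero hi (by simp only [g, if_neg hiP]), zero_mul, zero_mul]
      rw [h4, hL.smul 0 _ ⟨1, fun v => by simp⟩, zero_mul]
  rw [Finset.sum_congr rfl h3, ← Finset.sum_filter]
  have h5 : (univ : Finset ι).powerset.filter (fun J => J ⊆ P) = P.powerset := by
    ext J
    simp
  rw [h5, ← Finset.sum_mul]
  by_cases hcd : c = d
  · have hPn : P.Nonempty := by
      by_contra hPe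
      rw [Finset.not_nonempty_iff_eq_empty] at hPe
      apply ha
      funext i
      have h6 : i ∉ P := by rw [hPe]; exact Finset.notMem_empty i
      rw [hP, Finset.mem_filter] at h6
      have h7 : ¬ (1 ≤ c i ∧ 1 ≤ d i) := fun h => h6 ⟨Finset.mem_univ i, h⟩
      have h8 := hs i
      have h9 : c i = d i := congrFun hcd i
      rw [h8, Pi.zero_apply]
      omega
    have h6 := Finset.sum_powerset_neg_one_pow_card_of_nonempty hPn
    have h7 : ∑ J ∈ P.powerset, (-1 : ℝ) ^ J.card = 0 := by exact_mod_cast h6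
    rw [h7, zero_mul]
  · rw [if_neg hcd, mul_zero]

theorem vanish_of (h : Newforms θ w) {A : ι → ℕ} {k : ℕ} (hs : Sums w A k)
    {U : Ultrafilter ℕ} (hU : (U : Filter ℕ) ≤ atTop) :
    Vanish (Lm U) (fun i v => Real.cos (θ i v)) A k := by
  intro a ha hc
  obtain ⟨c, d, h0, h1, h2⟩ := hs a hc
  exact vanish_sum (isMean_Lm hU) (fun i v => ⟨Real.neg_one_le_cos _, Real.cos_le_one _⟩)
    (fun c d hc hd => Lm_of_tendsto hU (avg_known (h.known c d hc hd))) ha h0 h1 h2

end Pool.Agent.H63.WS
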