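import Pool.Agent.H63.WS.Defs
import Pool.Agent.H189.WS.Reg

/-!
# The combinatorics of the weights, with sums of two regular tuples
-/

set_option autoImplicit false
set_option linter.unusedSectionVars false

namespace Pool.Agent.H63.WS

open Finset Pool.Agent.H189.WS

variable {ι E : Type} [Fintype ι] [DecidableEq ι]

/-- a tuple supported on a regular set is regular -/
theorem distinct_supp {w : ι → E → ℕ} {c : ι → ℕ} {S : Finset ι} (hc : ∀ i, i ∉ S → c i = 0)
    (h : Regular w c S) : Distinct w c := by
  intro e j l hj hl he i _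
  have h0 : ∀ m : ι → ℕ, (∀ i ∈ univ, m i ≤ c i) → ∑ i, m i * w i e = ∑ i ∈ S, m i * w i e := by
    intro m hm
    symm
    refine Finset.sum_subset (Finset.subset_univ S) fun x _ hx => ?_
    have : m x = 0 := Nat.le_zero.1 (hc x hx ▸ hm x (Finset.mem_univ x))
    rw [this, zero_mul]
  by_cases hi : i ∈ S
  · rw [h0 j hj, h0 l hl] at he
    exact h e j l (fun x _ => hj x (Finset.mem_univ x)) (fun x _ => hl x (Finset.mem_univ x)) he i hi
  · have h1 := hj i (Finset.mem_univ i)
    have h2 := hl i (Finset.mem_univ i)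
    rw [hc i hi] at h1 h2
    omega

theorem sums_of_splits {w : ι → E → ℕ} {A : ι → ℕ} {k : ℕ} (h : Splits w A k) : Sums w A k := by
  intro a ha
  obtain ⟨S, h1, h2⟩ := h a ha
  refine ⟨fun i => if i ∈ S then a i else 0, fun i => if i ∈ S then 0 else a i, fun i => ?_, ?_, ?_⟩
  · by_cases hi : i ∈ S <;> simp [hi]
  · refine distinct_supp (S := S) (fun i hi => if_neg hi) (reg_mono (fun i hi => ?_) h1)
    simp only [if_pos hi]
    exact le_rfl
  · refine distinct_supp (S := Sᶜ) (fun i hi => ?_) (reg_mono (fun i hi => ?_) h2)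
    · rw [Finset.mem_compl, not_not] at hi
      exact if_pos hi
    · rw [Finset.mem_compl] at hi
      simp only [if_neg hi]
      exact le_rfl

/-- three forms: the thresholds `A_i` up to `P i j + P i k - 1` -/
theorem sums_three {w : ι → E → ℕ} {A : ι → ℕ} (hw : ∀ i e, 0 < w i e) (hc : Fintype.card ι = 3)
    (P : ι → ι → ℕ) (hP1 : ∀ i j, i ≠ j → 1 ≤ P i j)
    (hP : ∀ i j, i ≠ j → ∀ e, P i j * Nat.gcd (w i e) (w j e) ≤ w j e)
    (hA : ∀ i, A i + 1 ≤ ∑ j ∈ univ.erase i, P i j) : Sums w A 3 := by
  intro a ha
  have hex : ∃ i, a i < A i := by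
    by_contra hno
    push Not at hno
    have h1 : (univ.filter fun i => A i ≤ a i) = univ :=
      Finset.filter_true_of_mem fun i _ => hno i
    rw [h1, Finset.card_univ, hc] at ha
    exact lt_irrefl _ ha
  obtain ⟨i, hi⟩ := hex
  have h3 : (univ.erase i).card = 2 := by
    rw [Finset.card_erase_of_mem (Finset.mem_univ i), Finset.card_univ, hc]
  obtain ⟨j, k, hjk, hJ⟩ := Finset.card_eq_two.1 h3
  have hj : j ≠ i := Finset.ne_of_mem_erase (by rw [hJ]; simp : j ∈ univ.erase i)
  have hk : k ≠ i := Finset.ne_of_mem_erase (by rw [hJ]; simp : k ∈ univ.erase i)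
  have hall : ∀ x, x = i ∨ x = j ∨ x = k := by
    intro x
    by_cases hx : x = i
    · exact Or.inl hx
    · have : x ∈ univ.erase i := Finset.mem_erase.2 ⟨hx, Finset.mem_univ x⟩
      rw [hJ, Finset.mem_insert, Finset.mem_singleton] at this
      exact Or.inr this
  have hAi := hA i
  rw [hJ, Finset.sum_pair hjk] at hAi
  have p1 := hP1 i j hj.symm
  have p2 := hP1 i k hk.symm
  -- the splitting of a i
  set x := min (a i) (P i j - 1) with hx
  set y := a i - x with hy
  have hxP : x < P i j := by omega
  have hyP : y < P i k := by omega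
  have hxy : a i = x + y := by omega
  set c : ι → ℕ := fun l => if l = i then x else if l = j then a j else 0 with hcdef
  set d : ι → ℕ := fun l => if l = i then y else if l = k then a k else 0 with hddef
  refine ⟨c, d, ?_, ?_, ?_⟩
  · intro l
    rcases hall l with h | h | h
    · rw [h]
      simp only [hcdef, hddef, if_true]
      exact hxy
    · rw [h]
      simp only [hcdef, hddef, if_neg hj, if_true, if_neg hjk, add_zero]
    · rw [h]
      simp only [hcdef, hddef, if_neg hk, if_true, if_neg hjk.symm, zero_add]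
  · refine distinct_supp (S := {i, j}) (fun l hl => ?_)
      (reg_pair hw (A := fun _ => P i j) hj.symm ?_ (hP i j hj.symm))
    · rw [Finset.mem_insert, Finset.mem_singleton, not_or] at hl
      simp only [hcdef, if_neg hl.1, if_neg hl.2]
    · simp only [hcdef, if_true]
      exact hxP
  · refine distinct_supp (S := {i, k}) (fun l hl => ?_)
      (reg_pair hw (A := fun _ => P i k) hk.symm ?_ (hP i k hk.symm))
    · rw [Finset.mem_insert, Finset.mem_singleton, not_or] at hl
      simp only [hddef, if_neg hl.1, if_neg hl.2]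
    · simp only [hddef, if_true]
      exact hyP

end Pool.Agent.H63.WS
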