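import Pool.Agent.H63.WS.Fin

/-!
# Relative errors: one-sided approximations of products
-/

set_option autoImplicit false
set_option linter.unusedSectionVars false

namespace Pool.Agent.H63.WS

open NumberField IsDedekindDomain Filter Topology Finset
open Pool.Agent.TH553.ST Pool.Agent.TH553.RS Pool.Agent.W540.BE
open Pool.Agent.X289.Main Pool.Agent.X289.Uch Pool.Agent.X289.Al Pool.Agent.X289.Multi

/-- a minorant of a product -/
theorem weier {ι : Type} [DecidableEq ι] (s : Finset ι) (c q : ι → ℝ) (h0 : ∀ i, 0 ≤ c i)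
    (h1 : ∀ i, c i ≤ q i) :
    ∑ i ∈ s, c i * ∏ j ∈ s.erase i, q j - ((s.card : ℝ) - 1) * ∏ j ∈ s, q j ≤ ∏ i ∈ s, c i := by
  have hq : ∀ i, 0 ≤ q i := fun i => (h0 i).trans (h1 i)
  induction s using Finset.induction_on with
  | empty => simp
  | insert x s hx ih =>
    have e1 : ∑ i ∈ insert x s, c i * ∏ j ∈ (insert x s).erase i, q j =
        c x * ∏ j ∈ s, q j + q x * ∑ i ∈ s, c i * ∏ j ∈ s.erase i, q j := by
      rw [Finset.sum_insert hx, Finset.erase_insert hx, Finset.mul_sum]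
      congr 1
      refine Finset.sum_congr rfl fun i hi => ?_
      have hne : x ≠ i := fun h => hx (h ▸ hi)
      rw [Finset.erase_insert_of_ne hne, Finset.prod_insert]
      · ring
      · exact fun h => hx (Finset.mem_of_mem_erase h)
    have e2 : ∑ i ∈ s, c i * ∏ j ∈ s.erase i, q j ≤ s.card * ∏ j ∈ s, q j := by
      rw [← nsmul_eq_mul, ← Finset.sum_const]
      refine Finset.sum_le_sum fun i hi => ?_
      rw [← Finset.mul_prod_erase s q hi]
      exact mul_le_mul_of_nonneg_right (h1 i) (Finset.prod_nonneg fun j _ => hq j)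
    rw [e1, Finset.card_insert_of_notMem hx, Finset.prod_insert hx, Finset.prod_insert hx]
    push_cast
    have h2 := mul_le_mul_of_nonneg_left ih (h0 x)
    have h3 : 0 ≤ (q x - c x) * (s.card * ∏ j ∈ s, q j - ∑ i ∈ s, c i * ∏ j ∈ s.erase i, q j) :=
      mul_nonneg (by linarith [h1 x]) (by linarith)
    nlinarith

/-- the lower bound for the main term -/
theorem lower_main {ι : Type} [Fintype ι] [DecidableEq ι] {m Q ε : ι → ℝ} (hm : ∀ i, 0 < m i)
    (hQ : ∀ i, m i ≤ Q i) (hε : ∀ i, 0 ≤ ε i) (hs : 2 * ∑ i, ε i / m i ≤ 1) :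
    (∏ i, m i) * (1 - 2 * ∑ i, ε i / m i) ≤
      ∏ i, Q i - 2 * ∑ i, ε i * ∏ j ∈ univ.erase i, Q j := by
  have hQ0 : ∀ i, 0 < Q i := fun i => (hm i).trans_le (hQ i)
  have e1 : ∑ i, ε i * ∏ j ∈ univ.erase i, Q j = (∏ i, Q i) * ∑ i, ε i / Q i := by
    rw [Finset.mul_sum]
    refine Finset.sum_congr rfl fun i _ => ?_
    rw [← Finset.mul_prod_erase univ Q (Finset.mem_univ i)]
    have := (hQ0 i).ne'
    field_simp
  rw [e1]
  have h1 : ∑ i, ε i / Q i ≤ ∑ i, ε i / m i := Finset.sum_le_sum fun i _ =>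
    div_le_div_of_nonneg_left (hε i) (hm i) (hQ i)
  have h2 : ∏ i, m i ≤ ∏ i, Q i := Finset.prod_le_prod (fun i _ => (hm i).le) fun i _ => hQ i
  have h3 : 0 ≤ ∏ i, Q i := Finset.prod_nonneg fun i _ => (hQ0 i).le
  calc (∏ i, m i) * (1 - 2 * ∑ i, ε i / m i) ≤ (∏ i, Q i) * (1 - 2 * ∑ i, ε i / m i) :=
        mul_le_mul_of_nonneg_right h2 (by linarith)
    _ ≤ (∏ i, Q i) * (1 - 2 * ∑ i, ε i / Q i) := mul_le_mul_of_nonneg_left (by linarith) h3
    _ = ∏ i, Q i - 2 * ((∏ i, Q i) * ∑ i, ε i / Q i) := by ring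

theorem bdd_comb {X : Type} {x : X → ℝ} (hx : ∀ v, x v ∈ Set.Icc (-1 : ℝ) 1) (M : ℕ) (c : ℕ → ℝ) :
    Bdd fun v => comb M c (x v) := by
  unfold comb
  have : ∀ s : Finset ℕ, Bdd fun v => ∑ k ∈ s, c k * Uc k (x v) := by
    intro s
    induction s using Finset.induction_on with
    | empty => exact ⟨0, fun v => by simp⟩
    | insert a s ha ih =>
      obtain ⟨C, hC⟩ := ih
      obtain ⟨D, hD⟩ := bdd_Uc hx a
      refine ⟨|c a| * D + C, fun v => ?_⟩
      change |∑ k ∈ insert a s, c k * Uc k (x v)| ≤ |c a| * D + C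
      rw [Finset.sum_insert ha]
      refine (abs_add_le _ _).trans (add_le_add ?_ (hC v))
      rw [abs_mul]
      exact mul_le_mul_of_nonneg_left (hD v) (abs_nonneg _)
  exact this _

/-- one-sided bounds for the mean of a product -/
theorem rel_abs (combo : S_COMBO) {X ι : Type} [Fintype ι] [DecidableEq ι] {L : (X → ℝ) → ℝ}
    (hL : IsMean L) {x : ι → X → ℝ} (hx : ∀ i v, x i v ∈ Set.Icc (-1 : ℝ) 1) {A : ι → ℕ}
    (hA : ∀ i, 1 ≤ A i) (hv : Vanish L x A 1) {c : ι → X → ℝ}
    (hc : ∀ i v, c i v ∈ Set.Icc (0 : ℝ) 1) {m ε : ι → ℝ} (hm : ∀ i, 0 < m i)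
    (happ : ∀ i, Approx (c i) (x i) (m i) (A i) (ε i)) :
    (∏ i, m i) * (1 - 2 * ∑ i, ε i / m i) ≤ L (fun v => ∏ i, c i v) ∧
      L (fun v => ∏ i, c i v) ≤ ∏ i, (m i + 2 * ε i) := by
  choose p e he hce _ hme using happ
  have hbc : Bdd fun v => ∏ i, c i v := by
    refine ⟨1, fun v => ?_⟩
    rw [Finset.abs_prod]
    refine Finset.prod_le_one (fun i _ => abs_nonneg _) fun i _ => ?_
    rw [abs_of_nonneg (hc i v).1]
    exact (hc i v).2
  -- the majorants and minorants
  set q : ι → X → ℝ := fun i v => comb (A i) (fun k => p i k + e i k) (x i v) with hq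
  set r : ι → X → ℝ := fun i v => comb (A i) (fun k => p i k - e i k) (x i v) with hr
  have hcq : ∀ i v, c i v ≤ q i v := fun i v => by
    have := (abs_le.1 (hce i v)).2
    simp only [hq, comb_add]
    linarith
  have hrc : ∀ i v, r i v ≤ c i v := fun i v => by
    have := (abs_le.1 (hce i v)).1
    simp only [hr, comb_sub]
    linarith
  have hq0 : ∀ i v, 0 ≤ q i v := fun i v => (hc i v).1.trans (hcq i v)
  have hbq : ∀ i, Bdd (q i) := fun i => bdd_comb (hx i) _ _
  have hbr : ∀ i, Bdd (r i) := fun i => bdd_comb (hx i) _ _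
  have he0 : ∀ i, 0 ≤ e i 0 := fun i => (abs_nonneg _).trans (hme i)
  set Q : ι → ℝ := fun i => p i 0 + e i 0 with hQ
  have hmQ : ∀ i, m i ≤ Q i := fun i => by
    have := (abs_le.1 (hme i)).2
    simp only [hQ]
    linarith
  have hQm : ∀ i, Q i ≤ m i + 2 * ε i := fun i => by
    have := (abs_le.1 (hme i)).1
    have := he i
    simp only [hQ]
    linarith
  have hQ0 : ∀ i, 0 ≤ Q i := fun i => (hm i).le.trans (hmQ i)
  have LQ : L (fun v => ∏ i, q i v) = ∏ i, Q i :=
    combo X ι L hL x hx A 1 hv ∅ (by simp) A hA (fun i _ => le_rfl) fun i k => p i k + e i k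
  -- the products with one minorant
  have Lr : ∀ i, L (fun v => r i v * ∏ j ∈ univ.erase i, q j v) =
      (Q i - 2 * e i 0) * ∏ j ∈ univ.erase i, Q j := by
    intro i
    have h1 := combo X ι L hL x hx A 1 hv ∅ (by simp) A hA (fun i _ => le_rfl)
      fun j k => if j = i then p j k - e j k else p j k + e j k
    have h2 : (fun v => ∏ j, comb (A j) (fun k => if j = i then p j k - e j k else p j k + e j k)
        (x j v)) = fun v => r i v * ∏ j ∈ univ.erase i, q j v := by
      funext v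
      rw [← Finset.mul_prod_erase univ _ (Finset.mem_univ i)]
      congr 1
      · simp only [if_true, hr]
      · refine Finset.prod_congr rfl fun j hj => ?_
        have := Finset.ne_of_mem_erase hj
        simp only [if_neg this, hq]
    rw [h2] at h1
    rw [h1, ← Finset.mul_prod_erase univ _ (Finset.mem_univ i)]
    congr 1
    · simp only [if_true, hQ]
      ring
    · refine Finset.prod_congr rfl fun j hj => ?_
      have := Finset.ne_of_mem_erase hj
      simp only [if_neg this, hQ]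
  constructor
  · by_cases hs : 2 * ∑ i, ε i / m i ≤ 1
    · have hε0 : ∀ i, 0 ≤ ε i := fun i => (he0 i).trans (he i)
      refine (lower_main hm hmQ hε0 hs).trans ?_
      -- the minorant
      have h1 : L (fun v => ∑ i, r i v * ∏ j ∈ univ.erase i, q j v +
          (-(((univ : Finset ι).card : ℝ) - 1)) * ∏ j, q j v) ≤ L (fun v => ∏ i, c i v) := by
        have hb1 : ∀ i ∈ (univ : Finset ι), Bdd fun v => r i v * ∏ j ∈ univ.erase i, q j v :=
          fun i _ => bdd_mul (hbr i) (bdd_prod _ hbq)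
        refine hL.mono _ _ ?_ hbc fun v => ?_
        · have hb2 : Bdd fun v => ∑ i, r i v * ∏ j ∈ univ.erase i, q j v := by
            choose! C hC using fun i => hb1 i (Finset.mem_univ i)
            refine ⟨∑ i, C i, fun v => (Finset.abs_sum_le_sum_abs _ _).trans
              (Finset.sum_le_sum fun i _ => hC i v)⟩
          obtain ⟨C, hC⟩ := hb2
          obtain ⟨D, hD⟩ := bdd_mul (X := X) (f := fun _ => -(((univ : Finset ι).card : ℝ) - 1))
            ⟨|-(((univ : Finset ι).card : ℝ) - 1)|, fun v => le_rfl⟩ (bdd_prod univ hbq)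
          exact ⟨C + D, fun v => (abs_add_le _ _).trans (add_le_add (hC v) (hD v))⟩
        · have h2 := weier univ (fun i => c i v) (fun i => q i v) (fun i => (hc i v).1)
            fun i => hcq i v
          have h3 : ∑ i, r i v * ∏ j ∈ univ.erase i, q j v ≤
              ∑ i, c i v * ∏ j ∈ univ.erase i, q j v :=
            Finset.sum_le_sum fun i _ => mul_le_mul_of_nonneg_right (hrc i v)
              (Finset.prod_nonneg fun j _ => hq0 j v)
          linarith
      have e0 : ∏ i, Q i - 2 * ∑ i, ε i * ∏ j ∈ univ.erase i, Q j =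
          ∑ i, (Q i - 2 * e i 0) * ∏ j ∈ univ.erase i, Q j +
          (-(((univ : Finset ι).card : ℝ) - 1)) * ∏ j, Q j + 2 * ∑ i, (e i 0 - ε i) *
            ∏ j ∈ univ.erase i, Q j := by
        have h4 : ∑ i, (Q i - 2 * e i 0) * ∏ j ∈ univ.erase i, Q j =
            (univ : Finset ι).card * ∏ j, Q j - 2 * ∑ i, e i 0 * ∏ j ∈ univ.erase i, Q j := by
          rw [← nsmul_eq_mul, ← Finset.sum_const, Finset.mul_sum, ← Finset.sum_sub_distrib]
          refine Finset.sum_congr rfl fun i hi => ?_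
          rw [← Finset.mul_prod_erase univ Q hi]
          ring
        have h5 : ∑ i, (e i 0 - ε i) * ∏ j ∈ univ.erase i, Q j =
            ∑ i, e i 0 * ∏ j ∈ univ.erase i, Q j - ∑ i, ε i * ∏ j ∈ univ.erase i, Q j := by
          rw [← Finset.sum_sub_distrib]
          exact Finset.sum_congr rfl fun i _ => by ring
        rw [h4, h5]
        ring
      have h6 : ∑ i, (e i 0 - ε i) * ∏ j ∈ univ.erase i, Q j ≤ 0 :=
        Finset.sum_nonpos fun i _ => mul_nonpos_of_nonpos_of_nonneg (by linarith [he i])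
          (Finset.prod_nonneg fun j _ => hQ0 j)
      have h7 : L (fun v => ∑ i, r i v * ∏ j ∈ univ.erase i, q j v +
          (-(((univ : Finset ι).card : ℝ) - 1)) * ∏ j, q j v) =
          ∑ i, (Q i - 2 * e i 0) * ∏ j ∈ univ.erase i, Q j +
          (-(((univ : Finset ι).card : ℝ) - 1)) * ∏ j, Q j := by
        have hb1 : ∀ i ∈ (univ : Finset ι), Bdd fun v => r i v * ∏ j ∈ univ.erase i, q j v :=
          fun i _ => bdd_mul (hbr i) (bdd_prod _ hbq)
        have hb2 : Bdd fun v => ∑ i, r i v * ∏ j ∈ univ.erase i, q j v := by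
          choose! C hC using fun i => hb1 i (Finset.mem_univ i)
          refine ⟨∑ i, C i, fun v => (Finset.abs_sum_le_sum_abs _ _).trans
            (Finset.sum_le_sum fun i _ => hC i v)⟩
        rw [hL.add _ _ hb2 (bdd_mul (X := X) (f := fun _ => -(((univ : Finset ι).card : ℝ) - 1))
          ⟨|-(((univ : Finset ι).card : ℝ) - 1)|, fun v => le_rfl⟩ (bdd_prod univ hbq)),
          hL.smul _ _ (bdd_prod univ hbq), LQ, hL.sum _ hb1]
        congr 1
        exact Finset.sum_congr rfl fun i _ => Lr i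
      rw [h7] at h1
      rw [e0]
      linarith
    · have h1 : 0 ≤ L (fun v => ∏ i, c i v) := by
        have h2 := hL.mono (fun _ => 0 * 1) _ ⟨0, fun v => by simp⟩ hbc fun v => by
          simpa using Finset.prod_nonneg fun i _ => (hc i v).1
        rw [hL.smul 0 (fun _ => 1) ⟨1, fun v => by simp⟩, zero_mul] at h2
        exact h2
      have h2 : 0 ≤ ∏ i, m i := Finset.prod_nonneg fun i _ => (hm i).le
      nlinarith [not_le.1 hs]
  · refine (hL.mono _ _ hbc (bdd_prod univ hbq) fun v =>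
      Finset.prod_le_prod (fun i _ => (hc i v).1) fun i _ => hcq i v).trans ?_
    rw [LQ]
    exact Finset.prod_le_prod (fun i _ => hQ0 i) fun i _ => hQm i

variable {K : Type} [Field K] [NumberField K] {ι : Type} [Fintype ι] [DecidableEq ι] {E : Type}
  {θ : ι → HeightOneSpectrum (𝓞 K) → ℝ} {w : ι → E → ℕ}

/-- relative errors -/
theorem rel_main (hstep : S_STEP) (combo : S_COMBO) (h : Newforms θ w) {A : ι → ℕ}
    (hA : ∀ i, 2 ≤ A i) (hs : Sums w A 1) {α β : ι → ℝ} {I : ι → Set ℝ}
    (hI : ∀ i, IsInterval (α i) (β i) (I i)) (hst : ∀ i, 0 < st (α i) (β i)) {η : ℝ}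
    (hη : 0 < η) : ∀ᶠ N : ℕ in atTop,
      (∏ i, st (α i) (β i)) * (1 - 2 * ∑ i, (endErr (A i) (α i) + endErr (A i) (β i)) /
        st (α i) (β i)) - η ≤ proportion {v | ∀ i, θ i v ∈ I i} N ∧
      proportion {v | ∀ i, θ i v ∈ I i} N ≤
        ∏ i, (st (α i) (β i) + 2 * (endErr (A i) (α i) + endErr (A i) (β i))) + η := by
  by_contra hcon
  rw [Filter.not_eventually] at hcon
  set Bad : Set ℕ := {N : ℕ | ¬ ((∏ i, st (α i) (β i)) * (1 - 2 * ∑ i,
    (endErr (A i) (α i) + endErr (A i) (β i)) / st (α i) (β i)) - η ≤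
      proportion {v | ∀ i, θ i v ∈ I i} N ∧ proportion {v | ∀ i, θ i v ∈ I i} N ≤
        ∏ i, (st (α i) (β i) + 2 * (endErr (A i) (α i) + endErr (A i) (β i))) + η)} with hBad
  obtain ⟨U, hU⟩ : ∃ U : Ultrafilter ℕ, (U : Filter ℕ) ≤ atTop ⊓ 𝓟 Bad := by
    have : (atTop ⊓ 𝓟 Bad).NeBot := Filter.frequently_mem_iff_neBot.1 hcon
    exact ⟨Ultrafilter.of _, Ultrafilter.of_le _⟩
  have hUt : (U : Filter ℕ) ≤ atTop := hU.trans inf_le_left
  have hbad : ∀ᶠ N in (U : Filter ℕ), N ∈ Bad := by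
    have := hU.trans inf_le_right
    rwa [le_principal_iff] at this
  have hx : ∀ i v, Real.cos (θ i v) ∈ Set.Icc (-1 : ℝ) 1 := fun i v =>
    ⟨Real.neg_one_le_cos _, Real.cos_le_one _⟩
  have hc01 : ∀ i v, (I i).indicator (fun _ => (1 : ℝ)) (θ i v) ∈ Set.Icc (0 : ℝ) 1 := by
    intro i v
    by_cases h1 : θ i v ∈ I i
    · rw [Set.indicator_of_mem h1]; simp
    · rw [Set.indicator_of_notMem h1]; simp
  have h1 := rel_abs combo (isMean_Lm hUt) (x := fun i v => Real.cos (θ i v)) hx
    (A := A) (fun i => by have := hA i; omega) (vanish_of h hs hUt)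
    (c := fun i v => (I i).indicator (fun _ => (1 : ℝ)) (θ i v)) hc01
    (m := fun i => st (α i) (β i)) (ε := fun i => endErr (A i) (α i) + endErr (A i) (β i)) hst
    (fun i => (approx_interval hstep (h.angle i) (hI i) (by have := hA i; omega)).2 (hA i))
  have hbd : Bdd (fun v : HeightOneSpectrum (𝓞 K) =>
      ∏ i, (I i).indicator (fun _ => (1 : ℝ)) (θ i v)) := by
    refine ⟨1, fun v => ?_⟩
    rw [Finset.abs_prod]
    refine Finset.prod_le_one (fun i _ => abs_nonneg _) fun i _ => ?_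
    rw [abs_of_nonneg (hc01 i v).1]
    exact (hc01 i v).2
  have h2 := tendsto_Lm U hbd
  have h3 : Tendsto (fun N => proportion {v | ∀ i, θ i v ∈ I i} N) U
      (𝓝 (Lm U (fun v : HeightOneSpectrum (𝓞 K) =>
        ∏ i, (I i).indicator (fun _ => (1 : ℝ)) (θ i v)))) := by
    refine h2.congr fun N => ?_
    rw [proportion_eq]
    congr 1
    funext v
    exact (prod_indicator I v).symm
  have h4 : ∀ᶠ N in (U : Filter ℕ), (∏ i, st (α i) (β i)) * (1 - 2 * ∑ i,
      (endErr (A i) (α i) + endErr (A i) (β i)) / st (α i) (β i)) - η <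
      proportion {v | ∀ i, θ i v ∈ I i} N :=
    h3.eventually_const_lt (by linarith [h1.1])
  have h5 : ∀ᶠ N in (U : Filter ℕ), proportion {v | ∀ i, θ i v ∈ I i} N <
      ∏ i, (st (α i) (β i) + 2 * (endErr (A i) (α i) + endErr (A i) (β i))) + η :=
    h3.eventually_lt_const (by linarith [h1.2])
  obtain ⟨N, h6, h7, h8⟩ := (hbad.and (h4.and h5)).exists
  exact h6 ⟨h7.le, h8.le⟩

/-- all exponents up to `2 R` -/
theorem sums_double {w : ι → E → ℕ} {R : ℕ} (h : Distinct w fun _ => R) :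
    Sums w (fun _ => 2 * R + 1) 1 := by
  intro a ha
  have hall : ∀ i, a i ≤ 2 * R := by
    intro i
    by_contra hcon
    have h1 : i ∈ univ.filter fun i => 2 * R + 1 ≤ a i :=
      Finset.mem_filter.2 ⟨Finset.mem_univ i, by omega⟩
    have h2 := Finset.card_pos.2 ⟨i, h1⟩
    exact absurd ha (not_lt.2 h2)
  refine ⟨fun i => min (a i) R, fun i => a i - min (a i) R, fun i => ?_, ?_, ?_⟩
  · show a i = min (a i) R + (a i - min (a i) R)
    have := min_le_left (a i) R
    omega
  · intro e j l hj hl he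
    exact h e j l (fun i hi => (hj i hi).trans (min_le_right _ _))
      (fun i hi => (hl i hi).trans (min_le_right _ _)) he
  · have hle : ∀ i, a i - min (a i) R ≤ R := fun i => by
      have := hall i
      rcases le_total (a i) R with h1 | h1
      · rw [min_eq_left h1]; omega
      · rw [min_eq_right h1]; omega
    intro e j l hj hl he
    exact h e j l (fun i hi => (hj i hi).trans (hle i)) (fun i hi => (hl i hi).trans (hle i)) he

end Pool.Agent.H63.WS
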