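import Pool.Agent.H63.WS.Fin
import Pool.Agent.H63.WS.Reg2

/-!
# Three forms, the third one of a large weight
-/

set_option autoImplicit false
set_option linter.unusedSectionVars false

namespace Pool.Agent.H63.WS

open Finset Pool.Agent.H189.WS

theorem sums_two {E : Type} {w : Fin 3 → E → ℕ} (hw : ∀ i e, 0 < w i e) {A : Fin 3 → ℕ}
    (h0 : ∀ e, A 0 * Nat.gcd (w 0 e) (w 2 e) ≤ w 2 e)
    (h1 : ∀ e, A 1 * Nat.gcd (w 1 e) (w 2 e) ≤ w 2 e) : Sums w A 2 := by
  refine sums_of_splits fun a ha => ?_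
  by_cases ha0 : a 0 < A 0
  · exact ⟨{0, 2}, reg_pair hw (by decide) ha0 h0, reg_single hw a (by decide)⟩
  · have ha1 : a 1 < A 1 := by
      by_contra hcon
      have h2 : ({0, 1} : Finset (Fin 3)) ⊆ univ.filter fun i => A i ≤ a i := by
        intro i hi
        rw [Finset.mem_insert, Finset.mem_singleton] at hi
        rw [Finset.mem_filter]
        refine ⟨Finset.mem_univ i, ?_⟩
        rcases hi with rfl | rfl
        · exact not_lt.1 ha0
        · exact not_lt.1 hcon
      have h3 := Finset.card_le_card h2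
      have h4 : ({0, 1} : Finset (Fin 3)).card = 2 := by decide
      omega
    exact ⟨{1, 2}, reg_pair hw (by decide) ha1 h1, reg_single hw a (by decide)⟩

theorem bound_two_three (ε : Fin 3 → ℝ) : bound 2 ε = 2 * (ε 0 * ε 1 * (1 + ε 2) +
    ε 0 * ε 2 * (1 + ε 1) + ε 1 * ε 2 * (1 + ε 0) + ε 0 * ε 1 * ε 2) := by
  unfold bound
  have h1 : (univ.powerset.filter fun B : Finset (Fin 3) => 2 ≤ B.card) =
      {{0, 1}, {0, 2}, {1, 2}, {0, 1, 2}} := by decide
  have c1 : ({0, 1} : Finset (Fin 3))ᶜ = {2} := by decide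
  have c2 : ({0, 2} : Finset (Fin 3))ᶜ = {1} := by decide
  have c3 : ({1, 2} : Finset (Fin 3))ᶜ = {0} := by decide
  have c4 : ({0, 1, 2} : Finset (Fin 3))ᶜ = ∅ := by decide
  rw [h1, Finset.sum_insert (by decide), Finset.sum_insert (by decide),
    Finset.sum_insert (by decide), Finset.sum_singleton, c1, c2, c3, c4]
  have p1 : ∏ i ∈ ({0, 1} : Finset (Fin 3)), ε i = ε 0 * ε 1 := by
    rw [Finset.prod_insert (by decide), Finset.prod_singleton]
  have p2 : ∏ i ∈ ({0, 2} : Finset (Fin 3)), ε i = ε 0 * ε 2 := by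
    rw [Finset.prod_insert (by decide), Finset.prod_singleton]
  have p3 : ∏ i ∈ ({1, 2} : Finset (Fin 3)), ε i = ε 1 * ε 2 := by
    rw [Finset.prod_insert (by decide), Finset.prod_singleton]
  have p4 : ∏ i ∈ ({0, 1, 2} : Finset (Fin 3)), ε i = ε 0 * ε 1 * ε 2 := by
    rw [Finset.prod_insert (by decide), Finset.prod_insert (by decide), Finset.prod_singleton]
    ring
  rw [p1, p2, p3, p4, Finset.prod_singleton, Finset.prod_singleton, Finset.prod_singleton,
    Finset.prod_empty]
  ring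

/-- the error if the threshold of the third form is large -/
theorem bound_third {A M : ℕ} (hA : 2 ≤ A) {η : ℝ} (hη : 0 < η) (hM2 : 2 ≤ M)
    (hM : 320 / η < M) (α β : Fin 3 → ℝ) :
    bound 2 (fun i : Fin 3 => endErr ((![A, A, M] : Fin 3 → ℕ) i) (α i) +
      endErr ((![A, A, M] : Fin 3 → ℕ) i) (β i)) ≤
      2 * ((endErr A (α 0) + endErr A (β 0)) * (endErr A (α 1) + endErr A (β 1))) + η / 2 := by
  rw [bound_two_three]
  change 2 * ((endErr A (α 0) + endErr A (β 0)) * (endErr A (α 1) + endErr A (β 1)) *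
    (1 + (endErr M (α 2) + endErr M (β 2))) + (endErr A (α 0) + endErr A (β 0)) *
    (endErr M (α 2) + endErr M (β 2)) * (1 + (endErr A (α 1) + endErr A (β 1))) +
    (endErr A (α 1) + endErr A (β 1)) * (endErr M (α 2) + endErr M (β 2)) *
    (1 + (endErr A (α 0) + endErr A (β 0))) + (endErr A (α 0) + endErr A (β 0)) *
    (endErr A (α 1) + endErr A (β 1)) * (endErr M (α 2) + endErr M (β 2))) ≤ _
  set x := endErr A (α 0) + endErr A (β 0) with hx
  set y := endErr A (α 1) + endErr A (β 1) with hy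
  set z := endErr M (α 2) + endErr M (β 2) with hz
  have hA' : (2 : ℝ) ≤ A := by exact_mod_cast hA
  have hMp : (0 : ℝ) < M := (by positivity : (0 : ℝ) < 320 / η).trans hM
  have x0 : 0 ≤ x := add_nonneg (endErr_nonneg hA _) (endErr_nonneg hA _)
  have y0 : 0 ≤ y := add_nonneg (endErr_nonneg hA _) (endErr_nonneg hA _)
  have z0 : 0 ≤ z := add_nonneg (endErr_nonneg hM2 _) (endErr_nonneg hM2 _)
  have hA1 : 2 / (A : ℝ) ≤ 1 := by
    rw [div_le_one (by linarith)]
    exact hA'
  have x2 : x ≤ 2 := by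
    have h1 := endErr_le hA (α 0)
    have h2 := endErr_le hA (β 0)
    linarith
  have y2 : y ≤ 2 := by
    have h1 := endErr_le hA (α 1)
    have h2 := endErr_le hA (β 1)
    linarith
  have z2 : z ≤ 4 / M := by
    have h1 := endErr_le hM2 (α 2)
    have h2 := endErr_le hM2 (β 2)
    have : (4 : ℝ) / M = 2 / M + 2 / M := by ring
    rw [this]
    exact add_le_add h1 h2
  have h1 : 4 * (x * y) + x + y ≤ 20 := by
    have : x * y ≤ 2 * 2 := mul_le_mul x2 y2 y0 (by norm_num)
    linarith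
  have h2 : z * (4 * (x * y) + x + y) ≤ 4 / M * 20 :=
    mul_le_mul z2 h1 (by positivity) (by positivity)
  have h3 : 4 / (M : ℝ) * 20 ≤ η / 4 := by
    rw [div_mul_eq_mul_div, div_le_iff₀ hMp]
    rw [div_lt_iff₀ hη] at hM
    linarith
  have h4 : 2 * (x * y * (1 + z) + x * z * (1 + y) + y * z * (1 + x) + x * y * z) =
      2 * (x * y) + 2 * (z * (4 * (x * y) + x + y)) := by ring
  rw [h4]
  linarith

end Pool.Agent.H63.WS
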